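import Pool.Agent.TH826.DC.Ring
set_option autoImplicit false

/-!
The polynomial `y z² + (y² + 1 - Φ y) z + y` is irreducible for nonconstant `Φ`.
-/

namespace Pool.Agent.TH826.EF

open Polynomial

section irr

variable {K : Type*} [Field K] {n : ℕ}

/-- The polynomial `y z² + (y² + 1 - Φ y) z + y`. -/
noncomputable def eE (Φ : MvPolynomial (Fin n) K) :
    Polynomial (Polynomial (MvPolynomial (Fin n) K)) :=
  C X * X ^ 2 + C (X ^ 2 + 1 - C Φ * X) * X + C X

theorem irreducible_quad {ψ : MvPolynomial (Fin n) K} (hψ : ∀ y, ψ ≠ MvPolynomial.C y) :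
    Irreducible (X ^ 2 - C ψ * X + 1 : Polynomial (MvPolynomial (Fin n) K)) := by
  have hm : (X ^ 2 - C ψ * X + 1 : Polynomial (MvPolynomial (Fin n) K)).Monic := by monicity!
  have hd : (X ^ 2 - C ψ * X + 1 : Polynomial (MvPolynomial (Fin n) K)).natDegree = 2 := by
    compute_degree!
  rw [hm.irreducible_iff_roots_eq_zero_of_degree_le_three (by rw [hd]) (by rw [hd]; norm_num)]
  rw [Multiset.eq_zero_iff_forall_notMem]
  intro s hs
  rw [Polynomial.mem_roots hm.ne_zero, Polynomial.IsRoot.def] at hs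
  have hr' : s ^ 2 - ψ * s + 1 = 0 := by simpa using hs
  have h2 : s * (ψ - s) = 1 := by linear_combination -hr'
  have h3 : IsUnit s := IsUnit.of_mul_eq_one _ h2
  have h4 : IsUnit (ψ - s) := IsUnit.of_mul_eq_one s (by rw [mul_comm]; exact h2)
  obtain ⟨y, -, hy⟩ := MvPolynomial.isUnit_iff_eq_C_of_isReduced.1 h3
  obtain ⟨w, -, hw⟩ := MvPolynomial.isUnit_iff_eq_C_of_isReduced.1 h4
  refine hψ (y + w) ?_
  rw [map_add, ← hy, ← hw]
  ring

theorem taylor_eE (Φ : MvPolynomial (Fin n) K) : taylor 1 (eE Φ) =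
    C X * X ^ 2 + C (X ^ 2 - C (Φ - 2) * X + 1) * X + C (X ^ 2 - C (Φ - 2) * X + 1) := by
  unfold eE
  rw [map_add, map_add, taylor_mul, taylor_mul, taylor_C, taylor_C, taylor_X, taylor_pow, taylor_X]
  have h2 : (C (2 : MvPolynomial (Fin n) K) : Polynomial (MvPolynomial (Fin n) K)) = 2 := by
    rw [map_ofNat]
  simp only [map_sub, map_add, map_mul, map_pow, map_one, h2]
  have h3 : (C (2 : Polynomial (MvPolynomial (Fin n) K)) :
    Polynomial (Polynomial (MvPolynomial (Fin n) K))) = 2 := by rw [map_ofNat]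
  rw [h3]
  ring

theorem irreducible_eE {Φ : MvPolynomial (Fin n) K} (hΦ : ∀ y, Φ ≠ MvPolynomial.C y) :
    Irreducible (eE Φ) := by
  have hψ : ∀ y, Φ - 2 ≠ MvPolynomial.C y := by
    intro y h
    refine hΦ (y + 2) ?_
    rw [map_add, map_ofNat, ← h]
    ring
  set Q : Polynomial (MvPolynomial (Fin n) K) := X ^ 2 - C (Φ - 2) * X + 1 with hQ
  have hQi : Irreducible Q := irreducible_quad hψ
  have hQp : Prime Q := hQi.prime
  have hQ1 : Q = X * (X - C (Φ - 2)) + 1 := by
    rw [hQ]
    ring
  have hcop : ∀ r, r ∣ (X : Polynomial (MvPolynomial (Fin n) K)) → r ∣ Q → IsUnit r := by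
    intro r h1 h2
    refine isUnit_of_dvd_one ?_
    have h3 : (1 : Polynomial (MvPolynomial (Fin n) K)) = Q - X * (X - C (Φ - 2)) := by
      rw [hQ1]
      ring
    rw [h3]
    exact dvd_sub h2 (Dvd.dvd.mul_right h1 _)
  set f : Polynomial (Polynomial (MvPolynomial (Fin n) K)) :=
    C X * X ^ 2 + C Q * X + C Q with hf
  have hX0 : (X : Polynomial (MvPolynomial (Fin n) K)) ≠ 0 := X_ne_zero
  have hdeg : f.degree = 2 := by
    rw [hf]
    exact degree_quadratic hX0
  have hnd : f.natDegree = 2 := by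
    rw [hf]
    exact natDegree_quadratic hX0
  have hlead : f.leadingCoeff = X := by
    rw [hf]
    exact leadingCoeff_quadratic hX0
  have hc0 : f.coeff 0 = Q := by
    rw [hf]
    simp
  have hc1 : f.coeff 1 = Q := by
    rw [hf]
    simp
  have key : Irreducible f := by
    refine irreducible_of_eisenstein_criterion (P := Ideal.span {Q})
      ((Ideal.span_singleton_prime hQi.ne_zero).2 hQp) ?_ ?_ ?_ ?_ ?_
    · rw [hlead, Ideal.mem_span_singleton]
      intro h
      exact hQi.not_isUnit (hcop Q h dvd_rfl)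
    · intro k hk
      rw [hdeg] at hk
      have hk2 : k < 2 := by exact_mod_cast hk
      interval_cases k
      · rw [hc0]; exact Ideal.mem_span_singleton_self Q
      · rw [hc1]; exact Ideal.mem_span_singleton_self Q
    · rw [hdeg]; norm_num
    · rw [hc0, Ideal.span_singleton_pow, Ideal.mem_span_singleton]
      intro h
      apply hQi.not_isUnit
      obtain ⟨r, hr⟩ := h
      refine IsUnit.of_mul_eq_one r ?_
      have h1 : Q * (Q * r) = Q * 1 := by
        rw [mul_one]
        conv_rhs => rw [hr]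
        ring
      exact mul_left_cancel₀ hQi.ne_zero h1
    · intro r hr
      rw [C_dvd_iff_dvd_coeff] at hr
      refine hcop r ?_ ?_
      · have h1 := hr 2
        have h2 : f.coeff 2 = X := by
          rw [← hlead, leadingCoeff, hnd]
        rwa [h2] at h1
      · rw [← hc0]
        exact hr 0
  have h1 : taylorEquiv (1 : Polynomial (MvPolynomial (Fin n) K)) (eE Φ) = f := by
    have h2 := taylor_eE Φ
    exact h2
  rw [← h1] at key
  exact (MulEquiv.irreducible_iff
    (taylorEquiv (1 : Polynomial (MvPolynomial (Fin n) K)))).1 key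

theorem natDegree_eE (Φ : MvPolynomial (Fin n) K) : (eE Φ).natDegree = 2 := by
  unfold eE
  exact natDegree_quadratic X_ne_zero

theorem not_dvd {Φ : MvPolynomial (Fin n) K}
    {p : Polynomial (Polynomial (MvPolynomial (Fin n) K))} (hp : p ≠ 0) (hd : p.natDegree < 2) :
    ¬ eE Φ ∣ p := by
  rintro ⟨q, hq⟩
  have he : eE Φ ≠ 0 := by
    intro h
    have := natDegree_eE Φ
    rw [h, natDegree_zero] at this
    norm_num at this
  have hq0 : q ≠ 0 := by
    rintro rfl
    rw [mul_zero] at hq
    exact hp hq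
  rw [hq, natDegree_mul he hq0, natDegree_eE] at hd
  omega

end irr

end Pool.Agent.TH826.EF
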