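import Pool.Agent.TH826.EF.Tori
import Pool.Agent.TH826.DC.Final
set_option autoImplicit false

/-!
The regulators of the symbols of the simplices on the elliptic fibrations, for large `λ`.
-/

namespace Pool.Agent.TH826.EF

open Filter Topology

open Pool.Agent.TH826.MK

open Pool.Agent.TH826.GA

open Pool.Agent.TH826.SX (Nice exists_nice zt good_circ lw_circ good_nice lw_nice
  norm_zt_le det_ne_zero_near pairing_close circ_ne_zero)

open Pool.Agent.TH826.DC (dPhi PhC xw lc_xw contDiff_xw contDiff_lcw wT RM det_RM good_hs_comp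
  norm_lw_hs_comp)

section circles

variable {n : ℕ} {ι : Type*} [Fintype ι] [DecidableEq ι] {T : Fin n → ι}
  {H : ι → (Fin n → ℂ) → ℂ}

/-- The tori at the vertices. -/
theorem exists_circles (hT : Function.Injective T) (hH : ∀ e, ContDiff ℂ 2 (H e))
    (hTH : ∀ j w, H (T j) w = w j) (hH0 : ∀ e, (∀ j, T j ≠ e) → H e 0 ≠ 0) {ε : ℝ}
    (hε : 0 < ε) :
    ∃ C ρ : ℝ, 0 ≤ C ∧ 0 < ρ ∧ ρ ≤ 1 / 2 ∧
      (∀ e, Good fun θ : Fin n → ℝ => H e fun k => circ ρ (θ k)) ∧
      ∀ e (θ : Fin n → ℝ), |Real.log ‖H e fun k => circ ρ (θ k)‖| ≤ C ∧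
        ∀ j, ‖lw (fun θ : Fin n → ℝ => H e fun k => circ ρ (θ k)) j θ -
          2 * Real.pi * Complex.I * wT T e j‖ ≤ ε := by
  classical
  set φ : ι → (Fin n → ℂ) × ℂ → ℂ := fun e ζ => if (∀ j, T j ≠ e) then H e ζ.1 else 1 with hφ
  have hφc : ∀ e, ContDiff ℂ 2 (φ e) := by
    intro e
    by_cases h : ∀ j, T j ≠ e
    · have e1 : φ e = fun ζ => H e ζ.1 := by
        funext ζ
        simp only [hφ]
        rw [if_pos h]
      rw [e1]
      exact (hH e).comp contDiff_fst
    · have e1 : φ e = fun _ => 1 := by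
        funext ζ
        simp only [hφ]
        rw [if_neg h]
      rw [e1]
      exact contDiff_const
  have hφ0 : ∀ e, φ e 0 ≠ 0 := by
    intro e
    simp only [hφ]
    by_cases h : ∀ j, T j ≠ e
    · rw [if_pos h]
      exact hH0 e h
    · rw [if_neg h]
      exact one_ne_zero
  choose C hC using fun e => exists_nice ((hφc e).contDiffAt) (hφ0 e)
  have hall := eventually_all.2 fun e => hC e
  obtain ⟨δ, hδ, hball⟩ := Metric.eventually_nhds_iff.1 hall
  set C0 : ℝ := ∑ e, |C e| with hC0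
  have hC00 : 0 ≤ C0 := Finset.sum_nonneg fun k _ => abs_nonneg _
  have hCle : ∀ e, C e ≤ C0 := fun e =>
    (le_abs_self _).trans (Finset.single_le_sum (f := fun e => |C e|)
      (fun j _ => abs_nonneg _) (Finset.mem_univ e))
  have hnice : ∀ e, Nice δ C0 (φ e) := by
    intro e ζ hζ
    have h := hball (y := ζ) (by rwa [dist_zero_right])
    obtain ⟨a1, a2, a3, a4⟩ := h e
    exact ⟨a1, a2, a3.trans (hCle e), a4.trans (hCle e)⟩
  set ρ : ℝ := min (min (δ / 2) (1 / 2)) (ε / (2 * Real.pi * (C0 + 1))) with hρdef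
  have hpi := Real.pi_pos
  have hρ : 0 < ρ := lt_min (lt_min (by linarith) (by norm_num)) (by positivity)
  have hρδ : ρ < δ :=
    ((min_le_left _ _).trans (min_le_left _ _)).trans_lt (by linarith)
  have hρ2 : ρ ≤ 1 / 2 := (min_le_left _ _).trans (min_le_right _ _)
  have hρε : C0 * (2 * Real.pi * ρ) ≤ ε := by
    have h1 : ρ ≤ ε / (2 * Real.pi * (C0 + 1)) := min_le_right _ _
    rw [le_div_iff₀ (by positivity)] at h1
    calc C0 * (2 * Real.pi * ρ) ≤ (C0 + 1) * (2 * Real.pi * ρ) :=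
          mul_le_mul_of_nonneg_right (by linarith) (by positivity)
      _ = ρ * (2 * Real.pi * (C0 + 1)) := by ring
      _ ≤ ε := h1
  set η : ℂ := ((ρ ^ (n + 1) : ℝ) : ℂ) with hη
  have hη0 : η ≠ 0 := by
    rw [hη]
    exact_mod_cast (pow_pos hρ _).ne'
  have hηρ : ‖η‖ ≤ ρ ^ (n + 1) := by
    rw [hη, Complex.norm_real, Real.norm_eq_abs, abs_of_pos (pow_pos hρ _)]
  refine ⟨C0 + |Real.log ρ|, ρ, by positivity, hρ, hρ2, ?_, ?_⟩
  · intro e
    by_cases h : ∀ j, T j ≠ e
    · have h1 := good_nice hρ hρδ hη0 hηρ (hnice e)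
      simp only [hφ, if_pos h] at h1
      exact h1
    · push Not at h
      obtain ⟨j, rfl⟩ := h
      simp only [hTH]
      exact good_circ hρ j
  · intro e θ
    by_cases h : ∀ j, T j ≠ e
    · have h1 := fun j => lw_nice hρ hρδ hη0 hηρ (hnice e) j θ
      have h2 := (hnice e (zt ρ η θ) ((norm_zt_le hρ hηρ θ).trans_lt hρδ)).2.2.1
      simp only [hφ, if_pos h] at h1 h2
      refine ⟨h2.trans (by linarith [abs_nonneg (Real.log ρ)]), fun j => ?_⟩
      have h3 : wT T e j = 0 := by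
        unfold wT
        rw [if_neg (h j)]
      rw [h3, Complex.ofReal_zero, mul_zero, sub_zero]
      exact (h1 j).trans hρε
    · push Not at h
      obtain ⟨j0, rfl⟩ := h
      simp only [hTH]
      refine ⟨?_, fun j => ?_⟩
      · rw [norm_circ hρ.le]
        linarith
      · rw [lw_circ hρ j0 j θ]
        unfold wT
        by_cases h : j = j0
        · rw [if_pos h, if_pos (by rw [h])]
          simpa using hε.le
        · rw [if_neg h, if_neg fun h' => h (hT h')]
          simpa using hε.le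

end circles

section main

variable {K : Type*} [Field K] {d m : ℕ} {c : Fin (m + 1) → Fin (d + 1) → K}
  {a : Fin (m + 1) → K}

/-- the coordinates `y` and the coordinates at the vertex `T` -/
def TO (T : Fin (d + 1) → Fin (m + 1)) : Fin (d + 2) → Option (Fin (m + 1)) :=
  Fin.cons none fun j => some (T j)

theorem TO_injective {T : Fin (d + 1) → Fin (m + 1)} (hT : Function.Injective T) :
    Function.Injective (TO T) := by
  unfold TO
  rw [Fin.cons_injective_iff]
  refine ⟨?_, fun i j h => hT (Option.some_injective _ h)⟩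
  rintro ⟨j, hj⟩
  exact absurd hj (by simp)

/-- the functions -/
noncomputable def HO (σ : K →+* ℂ) (c : Fin (m + 1) → Fin (d + 1) → K) (a : Fin (m + 1) → K)
    (T : Fin (d + 1) → Fin (m + 1)) (e : Option (Fin (m + 1))) (w : Fin (d + 2) → ℂ) : ℂ :=
  e.elim (w 0) fun e => lc σ c a (xw σ c a T fun j => w j.succ) e

/-- the winding numbers of `Φ` -/
noncomputable def om (j : Fin (d + 2)) : ℝ := if j = 0 then 0 else 1

/-- the matrix of the orders of the entries at the vertex `T` -/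
noncomputable def RE (T : Fin (d + 1) → Fin (m + 1)) (S : Fin (d + 2) → Fin (m + 1)) :
    Matrix (Fin (d + 3)) (Fin (d + 3)) ℝ :=
  Matrix.of (Fin.cons (Fin.cons 1 om) (Fin.cons (Fin.cons 0 fun j : Fin (d + 2) => if j = 0 then 1 else 0)
    fun k : Fin (d + 1) =>
      Fin.cons 0 fun j => wT (TO T) (some (S k.succ)) j - wT (TO T) (some (S 0)) j :
        Fin (d + 2) → Fin (d + 3) → ℝ))

theorem det_RE (T : Fin (d + 1) → Fin (m + 1)) (S : Fin (d + 2) → Fin (m + 1)) :
    (RE T S).det = (RM T S).det := by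
  classical
  have h1 : (RM T S).det = (Matrix.of fun k j => wT T (S k.succ) j - wT T (S 0) j :
        Matrix (Fin (d + 1)) (Fin (d + 1)) ℝ).det := by
    rw [Matrix.det_succ_column_zero, Fin.sum_univ_succ]
    have h2 : ∀ k : Fin (d + 1), RM T S k.succ 0 = 0 := fun k => rfl
    have h3 : RM T S 0 0 = 1 := rfl
    simp only [h2, h3, mul_zero, zero_mul, Finset.sum_const_zero, add_zero, Fin.val_zero,
      pow_zero, mul_one, one_mul]
    congr 1
  set M : Matrix (Fin (d + 2)) (Fin (d + 2)) ℝ := Matrix.of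
    (Fin.cons (fun j : Fin (d + 2) => if j = 0 then (1 : ℝ) else 0) fun k : Fin (d + 1) =>
      fun j => wT (TO T) (some (S k.succ)) j - wT (TO T) (some (S 0)) j :
        Fin (d + 2) → Fin (d + 2) → ℝ) with hM
  have h4 : (RE T S).det = M.det := by
    rw [Matrix.det_succ_column_zero, Fin.sum_univ_succ]
    have h2 : ∀ k : Fin (d + 2), RE T S k.succ 0 = 0 := by
      intro k
      refine Fin.cases ?_ (fun k => ?_) k
      · rfl
      · rfl
    have h3 : RE T S 0 0 = 1 := rfl
    simp only [h2, h3, mul_zero, zero_mul, Finset.sum_const_zero, add_zero, Fin.val_zero,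
      pow_zero, mul_one, one_mul]
    congr 1
    ext k j
    rw [Matrix.submatrix_apply, Fin.succAbove_zero]
    refine Fin.cases ?_ (fun k => ?_) k
    · rfl
    · rfl
  have hwT0 : ∀ e, wT (TO T) (some e) 0 = 0 := by
    intro e
    unfold wT
    rw [if_neg]
    show (none : Option (Fin (m + 1))) ≠ some e
    simp
  have hwTs : ∀ e (j : Fin (d + 1)), wT (TO T) (some e) j.succ = wT T e j := by
    intro e j
    unfold wT
    have h5 : TO T j.succ = some (T j) := rfl
    rw [h5]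
    by_cases h : T j = e
    · rw [if_pos h, if_pos (by rw [h])]
    · rw [if_neg h, if_neg fun h' => h (Option.some_injective _ h')]
  rw [h1, h4, Matrix.det_succ_column_zero, Fin.sum_univ_succ]
  have h2 : ∀ k : Fin (d + 1), M k.succ 0 = 0 := by
    intro k
    show wT (TO T) (some (S k.succ)) 0 - wT (TO T) (some (S 0)) 0 = 0
    rw [hwT0, hwT0, sub_zero]
  have h3 : M 0 0 = 1 := by
    show (if (0 : Fin (d + 2)) = 0 then (1 : ℝ) else 0) = 1
    rw [if_pos rfl]
  simp only [h2, h3, mul_zero, zero_mul, Finset.sum_const_zero, add_zero, Fin.val_zero,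
    pow_zero, mul_one, one_mul]
  congr 1
  ext k j
  rw [Matrix.submatrix_apply, Fin.succAbove_zero]
  show wT (TO T) (some (S k.succ)) j.succ - wT (TO T) (some (S 0)) j.succ = _
  rw [hwTs, hwTs]
  rfl

theorem exists_torus (σ : K →+* ℂ)
    (hdet : ∀ T : Fin (d + 1) → Fin (m + 1), Function.Injective T → (cm c T).det ≠ 0)
    (hgen : ∀ S : Fin (d + 2) → Fin (m + 1), Function.Injective S → ∀ x : Fin (d + 1) → K,
      ∃ i, ∑ j, c (S i) j * x j ≠ a (S i))
    {T : Fin (d + 1) → Fin (m + 1)} (hT : Function.Injective T) {ε : ℝ} (hε : 0 < ε) :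
    ∃ Λ : ℝ, 1 < Λ ∧ ∀ lam : K, Λ ≤ ‖σ lam‖ → ∃ Γ : Torus (EOpen lam c a) (d + 2),
      (∀ θ x, Γ.e θ (ecst lam c a x) = σ x) ∧
      ∀ S : Fin (d + 2) → Fin (m + 1), Function.Injective S →
        |Γ.reg (symb (eent lam c a S)) / Real.log ‖σ lam‖ -
          (2 * Real.pi) ^ (d + 2) * (RE T S).det| ≤ ε := by
  classical
  choose δ hδ hclose using fun S : Fin (d + 2) → Fin (m + 1) => pairing_close (RE T S) hε
  obtain ⟨S0, -, hS0⟩ := Finset.exists_min_image Finset.univ δ
    ⟨fun _ => 0, Finset.mem_univ _⟩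
  set δ0 : ℝ := δ S0 / (m + 5) with hδ0
  have hm5 : (0 : ℝ) < m + 5 := by positivity
  have hδ0pos : 0 < δ0 := div_pos (hδ S0) hm5
  have hδle : ∀ S, (m + 4) * δ0 < δ S := by
    intro S
    have h1 := hS0 S (Finset.mem_univ S)
    have h2 : δ S0 = (m + 5) * δ0 := by
      rw [hδ0]
      field_simp
    linarith
  have hm0 : (0 : ℝ) ≤ m := Nat.cast_nonneg m
  obtain ⟨C1, ρ, hC1, hρ, hρ2, hWg, hWest⟩ := exists_circles (T := TO T) (H := HO σ c a T)
    (TO_injective hT)
    (fun e => by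
      cases e with
      | none => exact contDiff_apply ℂ ℂ 0
      | some e =>
        exact (contDiff_lcw σ T e).comp
          (contDiff_pi.2 fun j : Fin (d + 1) => contDiff_apply ℂ ℂ j.succ))
    (fun j w => by
      refine Fin.cases ?_ (fun j => ?_) j
      · rfl
      · show lc σ c a (xw σ c a T fun j => w j.succ) (T j) = _
        rw [lc_xw, be_T T (hdet T hT)]
        simp only [al_T T (hdet T hT)]
        simp)
    (fun e he => by
      cases e with
      | none => exact absurd rfl (he 0)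
      | some e =>
        have he' : ∀ j, T j ≠ e := fun j h => he j.succ (congrArg some h)
        show lc σ c a (xw σ c a T fun j => (0 : Fin (d + 2) → ℂ) j.succ) e ≠ 0
        rw [lc_xw]
        simp only [Pi.zero_apply, mul_zero, Finset.sum_const_zero, zero_add]
        exact (map_ne_zero σ).2 (be_ne hdet hgen hT he')) hδ0pos
  set G : ℝ := ∑ S : Fin (d + 2) → Fin (m + 1), ∑ i, |Real.log ‖σ (gam c S i)‖| with hG
  have hG0 : 0 ≤ G := Finset.sum_nonneg fun S _ => Finset.sum_nonneg fun i _ => abs_nonneg _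
  have hGS : ∀ S i, |Real.log ‖σ (gam c S i)‖| ≤ G := fun S i =>
    (Finset.single_le_sum (f := fun i => |Real.log ‖σ (gam c S i)‖|)
      (fun i _ => abs_nonneg _) (Finset.mem_univ i)).trans
    (Finset.single_le_sum (f := fun S => ∑ i, |Real.log ‖σ (gam c S i)‖|)
      (fun S _ => Finset.sum_nonneg fun i _ => abs_nonneg _) (Finset.mem_univ S))
  have hpi := Real.pi_pos
  have hnpi : ‖(2 * Real.pi * Complex.I : ℂ)‖ = 2 * Real.pi := by
    rw [norm_mul, norm_mul, Complex.norm_I, Complex.norm_real, Complex.norm_ofNat, mul_one,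
      Real.norm_eq_abs, abs_of_pos Real.pi_pos]
  set E : ℝ := 2 * Real.pi + (m + 1) * δ0 with hE
  have hE0 : 0 < E := by positivity
  set Y : ℝ := ρ + 1 / ρ with hY
  have hY0 : 0 < Y := by positivity
  set B : ℝ := 8 + 2 * Y + 2 * Y * (4 * Real.pi + E) / δ0 + 16 * (E + δ0) / δ0 with hB
  have hBa : 0 ≤ 2 * Y * (4 * Real.pi + E) / δ0 := by positivity
  have hBb : 0 ≤ 16 * (E + δ0) / δ0 := by positivity
  have hB8 : 8 ≤ B := by
    rw [hB]
    linarith
  have hBY : 2 * Y ≤ B := by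
    rw [hB]
    linarith
  have hBE : 16 / B ^ 2 * (E + δ0) ≤ δ0 := by
    have h1 : 16 * (E + δ0) / δ0 ≤ B := by
      rw [hB]
      linarith
    rw [div_le_iff₀ hδ0pos] at h1
    rw [div_mul_eq_mul_div, div_le_iff₀ (by positivity)]
    have h2 : B * δ0 * 1 ≤ B * δ0 * B := mul_le_mul_of_nonneg_left (by linarith) (by positivity)
    nlinarith
  have hBY2 : 2 * (Y / B) * (4 * Real.pi + E) ≤ δ0 := by
    have h1 : 2 * Y * (4 * Real.pi + E) / δ0 ≤ B := by
      rw [hB]
      linarith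
    rw [div_le_iff₀ hδ0pos] at h1
    have h2 : 2 * (Y / B) * (4 * Real.pi + E) = 2 * Y * (4 * Real.pi + E) / B := by ring
    rw [h2, div_le_iff₀ (by linarith)]
    linarith
  have hlogB : 0 ≤ Real.log B := Real.log_nonneg (by linarith)
  set M : ℝ := (m + 1) * C1 + Real.log B + ((m + 1) * C1 + 2) / δ0 + (G + C1) / δ0 + 1 with hM
  have hM1 : 0 ≤ ((m + 1) * C1 + 2) / δ0 := by positivity
  have hM2 : 0 ≤ (G + C1) / δ0 := by positivity
  have hM3 : 0 ≤ (m + 1) * C1 := by positivity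
  refine ⟨Real.exp M + 1, by linarith [Real.exp_pos M], fun lam hlam => ?_⟩
  have hln : 0 < ‖σ lam‖ := by linarith [Real.exp_pos M]
  have hl0 : σ lam ≠ 0 := norm_pos_iff.1 hln
  set s : ℝ := Real.log ‖σ lam‖ with hsdef
  have hsM : M ≤ s := by
    rw [hsdef, Real.le_log_iff_exp_le hln]
    linarith
  have hspos : 0 < s := by linarith
  have hs0 : s ≠ 0 := hspos.ne'
  set W : (Fin (d + 2) → ℝ) → (Fin (d + 2) → ℂ) := fun θ k => circ ρ (θ k) with hW
  have hWc : ContDiff ℝ 2 W := contDiff_pi.2 fun k => (good_circ hρ k).smooth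
  have hWp : ∀ θ i, W (θ + Pi.single i 1) = W θ := fun θ i =>
    tpt_add_single (fun _ => ρ) θ i
  set X : (Fin (d + 2) → ℝ) → (Fin (d + 1) → ℂ) := fun θ =>
    xw σ c a T fun j => W θ j.succ with hXdef
  have hXc : ContDiff ℝ 2 X := ((contDiff_xw σ T).restrict_scalars ℝ).comp
    (contDiff_pi.2 fun j : Fin (d + 1) => contDiff_pi.1 hWc j.succ)
  have hXp : ∀ θ i, X (θ + Pi.single i 1) = X θ := fun θ i => by
    simp only [hXdef, hWp]
  set y : (Fin (d + 2) → ℝ) → ℂ := fun θ => W θ 0 with hy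
  have hyc : ContDiff ℝ 2 y := contDiff_pi.1 hWc 0
  have hyp : ∀ θ i, y (θ + Pi.single i 1) = y θ := fun θ i => by
    simp only [hy, hWp]
  have hyg : Good y := good_circ hρ 0
  have hny : ∀ θ, ‖y θ‖ = ρ := fun θ => norm_circ hρ.le _
  have hlwy : ∀ j θ, lw y j θ = if j = 0 then 2 * Real.pi * Complex.I else 0 := fun j θ =>
    lw_circ hρ 0 j θ
  have hnlwy : ∀ j θ, ‖lw y j θ‖ ≤ 2 * Real.pi := by
    intro j θ
    rw [hlwy]
    split_ifs
    · exact hnpi.le
    · rw [norm_zero]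
      positivity
  have hg : ∀ e, Good fun θ => lc σ c a (X θ) e := fun e => hWg (some e)
  have hlogH : ∀ e θ, |Real.log ‖lc σ c a (X θ) e‖| ≤ C1 := fun e θ => (hWest (some e) θ).1
  have hlwH : ∀ e θ j, ‖lw (fun θ => lc σ c a (X θ) e) j θ -
      2 * Real.pi * Complex.I * wT (TO T) (some e) j‖ ≤ δ0 := fun e θ j =>
    (hWest (some e) θ).2 j
  have hlogy : ∀ θ, |Real.log ‖y θ‖| ≤ C1 := fun θ => (hWest none θ).1
  -- the function `Φ`
  set F : (Fin (d + 2) → ℝ) → ℂ := fun θ => PhC σ lam c a (X θ) with hF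
  have hgprod : Good fun θ => ∏ e, lc σ c a (X θ) e := good_prod Finset.univ hg
  have hFg : Good F := (good_const hl0).mul hgprod
  have hlogF : ∀ θ, |Real.log ‖F θ‖ - s| ≤ (m + 1) * C1 := by
    intro θ
    have h1 : Real.log ‖F θ‖ = s + ∑ e, Real.log ‖lc σ c a (X θ) e‖ := by
      have h2 : ‖F θ‖ = ‖σ lam‖ * ∏ e, ‖lc σ c a (X θ) e‖ := by
        simp only [hF]
        unfold PhC
        rw [norm_mul, norm_prod]
      rw [h2, Real.log_mul hln.ne' (Finset.prod_ne_zero_iff.2 fun e _ =>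
        norm_ne_zero_iff.2 ((hg e).ne_zero θ)), Real.log_prod fun e _ =>
        norm_ne_zero_iff.2 ((hg e).ne_zero θ)]
    rw [h1, add_sub_cancel_left]
    refine (Finset.abs_sum_le_sum_abs _ _).trans ?_
    refine (Finset.sum_le_sum fun e _ => hlogH e θ).trans ?_
    rw [Finset.sum_const, Finset.card_univ, Fintype.card_fin, nsmul_eq_mul]
    push_cast
    exact le_refl _
  have hFB : ∀ θ, B ≤ ‖F θ‖ := by
    intro θ
    have h1 := abs_le.1 (hlogF θ)
    have h2 : Real.log B ≤ Real.log ‖F θ‖ := by linarith [h1.1]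
    exact (Real.log_le_log_iff (by linarith) (norm_pos_iff.2 (hFg.ne_zero θ))).1 h2
  have hlwF : ∀ j θ, ‖lw F j θ - 2 * Real.pi * Complex.I * om j‖ ≤ (m + 1) * δ0 := by
    intro j θ
    have h1 : lw F j θ = ∑ e, lw (fun θ => lc σ c a (X θ) e) j θ := by
      have h2 := lw_mul (good_const (d := d + 2) hl0) hgprod j θ
      rw [lw_const, zero_add, lw_prod Finset.univ hg] at h2
      exact h2
    have h3 : (2 * Real.pi * Complex.I * om j : ℂ) =
        ∑ e, 2 * Real.pi * Complex.I * ((wT (TO T) (some e) j : ℝ) : ℂ) := by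
      rw [← Finset.mul_sum]
      congr 1
      revert j
      refine Fin.cases ?_ (fun j => ?_)
      · intro _
        unfold om
        rw [if_pos rfl]
        symm
        rw [Complex.ofReal_zero]
        refine Finset.sum_eq_zero fun e _ => ?_
        unfold wT
        rw [if_neg, Complex.ofReal_zero]
        show (none : Option (Fin (m + 1))) ≠ some e
        simp
      · intro _
        unfold om
        rw [if_neg (Fin.succ_ne_zero j), Finset.sum_eq_single (T j)]
        · unfold wT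
          rw [if_pos (show TO T j.succ = some (T j) from rfl)]
        · intro e _ he
          unfold wT
          rw [if_neg, Complex.ofReal_zero]
          intro h
          exact he (Option.some_injective _ h).symm
        · intro h
          exact absurd (Finset.mem_univ _) h
    rw [h1, h3, ← Finset.sum_sub_distrib]
    refine (norm_sum_le _ _).trans ?_
    refine (Finset.sum_le_sum fun e _ => hlwH e θ j).trans ?_
    rw [Finset.sum_const, Finset.card_univ, Fintype.card_fin, nsmul_eq_mul]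
    push_cast
    exact le_refl _
  have hnlwF : ∀ j θ, ‖lw F j θ‖ ≤ E := by
    intro j θ
    have h1 := norm_sub_norm_le (lw F j θ) (2 * Real.pi * Complex.I * om j)
    have h2 : ‖(2 * Real.pi * Complex.I * om j : ℂ)‖ ≤ 2 * Real.pi := by
      unfold om
      split_ifs
      · rw [Complex.ofReal_zero, mul_zero, norm_zero]
        positivity
      · rw [Complex.ofReal_one, mul_one]
        exact hnpi.le
    have h3 := hlwF j θ
    rw [hE]
    linarith
  -- the function `y + 1/y`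
  have hyi : Good fun θ => (y θ)⁻¹ :=
    ⟨hyc.inv hyg.ne_zero, fun θ => inv_ne_zero (hyg.ne_zero θ)⟩
  have hlwyi : ∀ j θ, lw (fun θ => (y θ)⁻¹) j θ = -lw y j θ := by
    intro j θ
    have h1 := lw_mul hyg hyi j θ
    have h2 : (fun θ => y θ * (y θ)⁻¹) = fun _ => 1 := by
      funext θ
      exact mul_inv_cancel₀ (hyg.ne_zero θ)
    rw [h2, lw_const] at h1
    linear_combination -h1
  set κ1 : (Fin (d + 2) → ℝ) → ℂ := fun θ => -1 * (y θ * y θ) with hκ1
  have hκ1g : Good κ1 := (good_const (by norm_num)).mul (hyg.mul hyg)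
  have hnκ1 : ∀ θ, ‖κ1 θ‖ ≤ 1 / 4 := by
    intro θ
    simp only [hκ1]
    rw [norm_mul, norm_mul, hny, norm_neg, norm_one, one_mul]
    nlinarith
  have hlwκ1 : ∀ j θ, ‖lw κ1 j θ‖ ≤ 4 * Real.pi := by
    intro j θ
    have h1 := lw_mul (good_const (d := d + 2) (show (-1 : ℂ) ≠ 0 by norm_num)) (hyg.mul hyg) j θ
    rw [lw_const, zero_add, lw_mul hyg hyg] at h1
    have h2 : lw κ1 j θ = lw y j θ + lw y j θ := h1
    rw [h2]
    refine (norm_add_le _ _).trans ?_
    linarith [hnlwy j θ]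
  have hκ12 : ∀ θ, ‖κ1 θ‖ ≤ 1 / 2 := fun θ => (hnκ1 θ).trans (by norm_num)
  have hgg : Good fun θ => (y θ)⁻¹ * (1 - κ1 θ) := hyi.mul (good_one_sub hκ1g hκ12)
  set g : (Fin (d + 2) → ℝ) → ℂ := fun θ => (y θ)⁻¹ * (1 - κ1 θ) with hgdef
  have hgeq : ∀ θ, g θ = y θ + (y θ)⁻¹ := by
    intro θ
    have h0 := hyg.ne_zero θ
    simp only [hgdef, hκ1]
    field_simp
    ring
  have hng : ∀ θ, ‖g θ‖ ≤ Y := by
    intro θ
    rw [hgeq]
    refine (norm_add_le _ _).trans ?_
    rw [norm_inv, hny, hY, one_div]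
  have hlwg : ∀ j θ, ‖lw g j θ‖ ≤ 4 * Real.pi := by
    intro j θ
    have h1 := lw_mul hyi (good_one_sub hκ1g hκ12) j θ
    have h2 : lw g j θ = lw (fun θ => (y θ)⁻¹) j θ + lw (fun θ => 1 - κ1 θ) j θ := h1
    rw [h2, hlwyi]
    have h3 := norm_lw_one_sub hκ1g hκ12 j θ
    have h4 : 2 * ‖κ1 θ‖ * ‖lw κ1 j θ‖ ≤ 2 * (1 / 4) * (4 * Real.pi) := by
      refine mul_le_mul ?_ (hlwκ1 j θ) (norm_nonneg _) (by norm_num)
      linarith [hnκ1 θ]
    refine (norm_add_le _ _).trans ?_
    rw [norm_neg]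
    linarith [hnlwy j θ]
  -- the function `κ = (y + 1/y) / Φ`
  have hFi : Good fun θ => (F θ)⁻¹ :=
    ⟨hFg.smooth.inv hFg.ne_zero, fun θ => inv_ne_zero (hFg.ne_zero θ)⟩
  have hlwFi : ∀ j θ, lw (fun θ => (F θ)⁻¹) j θ = -lw F j θ := by
    intro j θ
    have h1 := lw_mul hFg hFi j θ
    have h2 : (fun θ => F θ * (F θ)⁻¹) = fun _ => 1 := by
      funext θ
      exact mul_inv_cancel₀ (hFg.ne_zero θ)
    rw [h2, lw_const] at h1
    linear_combination -h1
  have hκg : Good fun θ => g θ * (F θ)⁻¹ := hgg.mul hFi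
  set κ : (Fin (d + 2) → ℝ) → ℂ := fun θ => g θ * (F θ)⁻¹ with hκ
  have hnκ : ∀ θ, ‖κ θ‖ ≤ Y / B := by
    intro θ
    simp only [hκ]
    rw [norm_mul, norm_inv, ← div_eq_mul_inv]
    exact div_le_div₀ hY0.le (hng θ) (by linarith) (hFB θ)
  have hκ2 : ∀ θ, ‖κ θ‖ ≤ 1 / 2 := by
    intro θ
    refine (hnκ θ).trans ?_
    rw [div_le_div_iff₀ (by linarith) (by norm_num)]
    linarith
  have hlwκ : ∀ j θ, ‖lw κ j θ‖ ≤ 4 * Real.pi + E := by
    intro j θ
    have h1 : lw κ j θ = lw g j θ + lw (fun θ => (F θ)⁻¹) j θ := lw_mul hgg hFi j θ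
    rw [h1, hlwFi]
    refine (norm_add_le _ _).trans ?_
    rw [norm_neg]
    exact add_le_add (hlwg j θ) (hnlwF j θ)
  have hκsg := good_one_sub hκg hκ2
  have hlwκs : ∀ j θ, ‖lw (fun θ => 1 - κ θ) j θ‖ ≤ δ0 := by
    intro j θ
    refine (norm_lw_one_sub hκg hκ2 j θ).trans (le_trans ?_ hBY2)
    refine mul_le_mul ?_ (hlwκ j θ) (norm_nonneg _) (by positivity)
    linarith [hnκ θ]
  -- the function `Ψ = Φ - y - 1/y`
  have hΨg : Good fun θ => F θ * (1 - κ θ) := hFg.mul hκsg
  set Ψ : (Fin (d + 2) → ℝ) → ℂ := fun θ => F θ * (1 - κ θ) with hΨ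
  have hΨeq : ∀ θ, Ψ θ = PhC σ lam c a (X θ) - (y θ + (y θ)⁻¹) := by
    intro θ
    have h0 := hFg.ne_zero θ
    have h1 : Ψ θ = F θ - g θ := by
      simp only [hΨ, hκ]
      field_simp
    rw [h1, hgeq]
  have hlogΨ : ∀ θ, |Real.log ‖Ψ θ‖ - s| ≤ (m + 1) * C1 + 1 := by
    intro θ
    have h1 : Real.log ‖Ψ θ‖ = Real.log ‖F θ‖ + Real.log ‖1 - κ θ‖ := by
      simp only [hΨ]
      rw [norm_mul, Real.log_mul (norm_ne_zero_iff.2 (hFg.ne_zero θ))
        (norm_ne_zero_iff.2 (hκsg.ne_zero θ))]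
    have h2 := hlogF θ
    have h3 := abs_log_one_sub (hκ2 θ)
    rw [h1]
    have h4 : Real.log ‖F θ‖ + Real.log ‖1 - κ θ‖ - s =
        (Real.log ‖F θ‖ - s) + Real.log ‖1 - κ θ‖ := by ring
    rw [h4]
    exact (abs_add_le _ _).trans (add_le_add h2 h3)
  have hΨB : ∀ θ, B / 2 ≤ ‖Ψ θ‖ := by
    intro θ
    simp only [hΨ]
    rw [norm_mul]
    have h1 := hFB θ
    have h2 := norm_one_sub_ge (hκ2 θ)
    calc B / 2 = B * (1 / 2) := by ring
      _ ≤ _ := mul_le_mul h1 h2 (by norm_num) (norm_nonneg _)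
  have hΨ4 : ∀ θ, 4 ≤ ‖Ψ θ‖ := fun θ => le_trans (by linarith) (hΨB θ)
  have hlwΨ : ∀ j θ, ‖lw Ψ j θ - 2 * Real.pi * Complex.I * om j‖ ≤ (m + 2) * δ0 := by
    intro j θ
    have h1 : lw Ψ j θ = lw F j θ + lw (fun θ => 1 - κ θ) j θ := lw_mul hFg hκsg j θ
    rw [h1]
    have h2 : lw F j θ + lw (fun θ => 1 - κ θ) j θ - 2 * Real.pi * Complex.I * om j =
        (lw F j θ - 2 * Real.pi * Complex.I * om j) + lw (fun θ => 1 - κ θ) j θ := by ring
    rw [h2]
    refine (norm_add_le _ _).trans ?_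
    have h3 := hlwF j θ
    have h4 := hlwκs j θ
    linarith
  have hnlwΨ : ∀ j θ, ‖lw Ψ j θ‖ ≤ E + δ0 := by
    intro j θ
    have h1 : lw Ψ j θ = lw F j θ + lw (fun θ => 1 - κ θ) j θ := lw_mul hFg hκsg j θ
    rw [h1]
    exact (norm_add_le _ _).trans (add_le_add (hnlwF j θ) (hlwκs j θ))
  have hPt : ∀ θ, EPt σ lam c a (X θ) (y θ) := fun θ =>
    ⟨hyg.ne_zero θ, hFg.ne_zero θ, by
      rw [← hΨeq]
      linarith [hΨ4 θ]⟩
  have hgh := good_hs_comp hΨg hΨ4
  refine ⟨mkE X y hXc hyc hXp hyp hPt, fun θ x => (hPt θ).evA_ecst x, fun S hS => ?_⟩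
  rw [Torus.reg_symb]
  set Γ := mkE X y hXc hyc hXp hyp hPt with hΓ
  have hγ : ∀ i, gam c S i ≠ 0 := by
    intro i
    unfold gam
    exact mul_ne_zero (pow_ne_zero _ (by norm_num)) (hdet _ (injective_face hS i))
  have hγc : ∀ i, σ (gam c S i) ≠ 0 := fun i => (map_ne_zero σ).2 (hγ i)
  have hgz : ∀ i, Γ.fn (eg lam c a S i : EOpen lam c a) =
      fun θ => σ (gam c S i) * lc σ c a (X θ) (S i) := fun i =>
    mkE_eg X y hXc hyc hXp hyp hPt S i (hγ i)
  have hgoodZ : ∀ i, Good (Γ.fn (eg lam c a S i : EOpen lam c a)) := fun i => Γ.good _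
  have hgoodE : ∀ l, Good (Γ.fn (eent lam c a S l : EOpen lam c a)) := fun l => Γ.good _
  -- estimates for the `γ_i L_{S i}`
  have hZlog : ∀ i θ, |Real.log ‖Γ.fn (eg lam c a S i : EOpen lam c a) θ‖ / s| ≤ δ0 := by
    intro i θ
    rw [congrFun (hgz i) θ, norm_mul, Real.log_mul (norm_ne_zero_iff.2 (hγc i))
      (norm_ne_zero_iff.2 ((hg (S i)).ne_zero θ)), abs_div, abs_of_pos hspos,
      div_le_iff₀ hspos]
    have h1 := hGS S i
    have h2 := hlogH (S i) θ
    have h3 : (G + C1) / δ0 ≤ s := by linarith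
    rw [div_le_iff₀ hδ0pos] at h3
    refine (abs_add_le _ _).trans ?_
    linarith
  have hZlw : ∀ i j θ, ‖lw (Γ.fn (eg lam c a S i : EOpen lam c a)) j θ -
      2 * Real.pi * Complex.I * wT (TO T) (some (S i)) j‖ ≤ δ0 := by
    intro i j θ
    have h1 := lw_mul (good_const (d := d + 2) (hγc i)) (hg (S i)) j θ
    rw [lw_const, zero_add] at h1
    rw [hgz i]
    have h2 : lw (fun θ => σ (gam c S i) * lc σ c a (X θ) (S i)) j θ =
      lw (fun θ => lc σ c a (X θ) (S i)) j θ := h1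
    rw [h2]
    exact hlwH (S i) θ j
  have hmul : ∀ l : Fin (d + 1), (fun θ => Γ.fn (eent lam c a S l.succ.succ : EOpen lam c a) θ *
      Γ.fn (eg lam c a S 0 : EOpen lam c a) θ) = Γ.fn (eg lam c a S l.succ : EOpen lam c a) := by
    intro l
    funext θ
    unfold Torus.fn
    rw [← map_mul, ← Units.val_mul]
    congr 2
    show eg lam c a S l.succ / eg lam c a S 0 * eg lam c a S 0 = _
    exact div_mul_cancel _ _
  have hzfn : Γ.fn (eent lam c a S 0 : EOpen lam c a) = fun θ => Ψ θ * hs (Ψ θ) := by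
    have h1 : Γ.fn (eent lam c a S 0 : EOpen lam c a) =
        fun θ => zeta (PhC σ lam c a (X θ) - (y θ + (y θ)⁻¹)) :=
      mkE_uz X y hXc hyc hXp hyp hPt
    rw [h1]
    funext θ
    rw [← hΨeq]
    rfl
  have hyfn : Γ.fn (eent lam c a S (Fin.succ 0) : EOpen lam c a) = y :=
    mkE_uy X y hXc hyc hXp hyp hPt
  refine hclose S _ _ hs0 hgoodE (fun l θ => ?_) (fun l j θ => ?_)
  · revert l
    refine Fin.cases ?_ (fun l => ?_)
    · have e : RE T S 0 0 = 1 := rfl
      rw [e, congrFun hzfn θ, norm_mul, Real.log_mul (norm_ne_zero_iff.2 (hΨg.ne_zero θ))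
        (norm_ne_zero_iff.2 (hgh.ne_zero θ))]
      have h1 := hlogΨ θ
      have h2 : |Real.log ‖hs (Ψ θ)‖| ≤ 1 := by
        exact ((abs_log_norm_hs (hΨ4 θ)).trans (six_div_le (hΨ4 θ))).trans (by norm_num)
      have h3 : ((m + 1) * C1 + 2) / δ0 ≤ s := by linarith
      rw [div_le_iff₀ hδ0pos] at h3
      have h4 : (Real.log ‖Ψ θ‖ + Real.log ‖hs (Ψ θ)‖) / s - 1 =
          ((Real.log ‖Ψ θ‖ - s) + Real.log ‖hs (Ψ θ)‖) / s := by
        field_simp
        ring
      rw [h4, abs_div, abs_of_pos hspos]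
      have h5 : |(Real.log ‖Ψ θ‖ - s) + Real.log ‖hs (Ψ θ)‖| / s ≤ δ0 := by
        rw [div_le_iff₀ hspos]
        refine (abs_add_le _ _).trans ?_
        linarith
      have h6 := hδle S
      nlinarith
    · revert l
      refine Fin.cases ?_ (fun l => ?_)
      · have e : RE T S (Fin.succ 0) 0 = 0 := rfl
        rw [e, sub_zero, congrFun hyfn θ, abs_div, abs_of_pos hspos]
        refine lt_of_le_of_lt ?_ (hδle S)
        have h1 := hlogy θ
        have h3 : (G + C1) / δ0 ≤ s := by linarith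
        rw [div_le_iff₀ hδ0pos] at h3
        have h4 : |Real.log ‖y θ‖| / s ≤ δ0 := by
          rw [div_le_iff₀ hspos]
          linarith
        nlinarith
      · have h1 := hZlog l.succ θ
        have h2 := hZlog 0 θ
        have h3 : Real.log ‖Γ.fn (eent lam c a S l.succ.succ : EOpen lam c a) θ *
            Γ.fn (eg lam c a S 0 : EOpen lam c a) θ‖ =
            Real.log ‖Γ.fn (eg lam c a S l.succ : EOpen lam c a) θ‖ :=
          congrArg (fun z : ℂ => Real.log ‖z‖) (congrFun (hmul l) θ)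
        rw [norm_mul, Real.log_mul (norm_ne_zero_iff.2 ((hgoodE l.succ.succ).ne_zero θ))
          (norm_ne_zero_iff.2 ((hgoodZ 0).ne_zero θ))] at h3
        have h4 : Real.log ‖Γ.fn (eent lam c a S l.succ.succ : EOpen lam c a) θ‖ =
            Real.log ‖Γ.fn (eg lam c a S l.succ : EOpen lam c a) θ‖ -
            Real.log ‖Γ.fn (eg lam c a S 0 : EOpen lam c a) θ‖ := by
          linarith
        have e : RE T S l.succ.succ 0 = 0 := rfl
        rw [h4, sub_div, e, sub_zero]
        refine lt_of_le_of_lt ?_ (hδle S)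
        have h5 := abs_le.1 h1
        have h6 := abs_le.1 h2
        have h7 : 2 * δ0 ≤ (m + 4) * δ0 := mul_le_mul_of_nonneg_right (by linarith) hδ0pos.le
        rw [abs_le]
        constructor <;> linarith [h5.1, h5.2, h6.1, h6.2]
  · revert l
    refine Fin.cases ?_ (fun l => ?_)
    · have e : RE T S 0 j.succ = om j := rfl
      rw [e, hzfn, lw_mul hΨg hgh]
      have h1 := hlwΨ j θ
      have h2 : ‖lw (fun θ => hs (Ψ θ)) j θ‖ ≤ δ0 := by
        refine (norm_lw_hs_comp hΨg hΨ4 j θ).trans (le_trans ?_ hBE)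
        refine mul_le_mul ?_ (hnlwΨ j θ) (norm_nonneg _) (by positivity)
        have h3 : 4 / ‖Ψ θ‖ ^ 2 ≤ 4 / (B / 2) ^ 2 := by
          refine div_le_div_of_nonneg_left (by norm_num) (by positivity) ?_
          exact pow_le_pow_left₀ (by linarith) (hΨB θ) 2
        refine h3.trans (le_of_eq ?_)
        field_simp
        ring
      have h3 : lw Ψ j θ + lw (fun θ => hs (Ψ θ)) j θ - 2 * Real.pi * Complex.I * om j =
          (lw Ψ j θ - 2 * Real.pi * Complex.I * om j) + lw (fun θ => hs (Ψ θ)) j θ := by ring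
      rw [h3]
      refine lt_of_le_of_lt ((norm_add_le _ _).trans (add_le_add h1 h2)) ?_
      have h4 := hδle S
      nlinarith
    · revert l
      refine Fin.cases ?_ (fun l => ?_)
      · have e : RE T S (Fin.succ 0) j.succ = if j = 0 then 1 else 0 := rfl
        have h0 : lw y j θ - 2 * Real.pi * Complex.I * ((if j = 0 then 1 else 0 : ℝ) : ℂ) = 0 := by
          rw [hlwy]
          split_ifs <;> simp
        rw [e, hyfn, h0, norm_zero]
        exact hδ S
      · have h1 := hZlw l.succ j θ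
        have h2 := hZlw 0 j θ
        have h3 := lw_mul (hgoodE l.succ.succ) (hgoodZ 0) j θ
        rw [hmul l] at h3
        have h4 : lw (Γ.fn (eent lam c a S l.succ.succ : EOpen lam c a)) j θ =
            lw (Γ.fn (eg lam c a S l.succ : EOpen lam c a)) j θ -
            lw (Γ.fn (eg lam c a S 0 : EOpen lam c a)) j θ := by
          rw [h3]
          ring
        have e : RE T S l.succ.succ j.succ =
            wT (TO T) (some (S l.succ)) j - wT (TO T) (some (S 0)) j := rfl
        rw [h4, e]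
        refine lt_of_le_of_lt ?_ (hδle S)
        have e2 : lw (Γ.fn (eg lam c a S l.succ : EOpen lam c a)) j θ -
            lw (Γ.fn (eg lam c a S 0 : EOpen lam c a)) j θ - 2 * Real.pi * Complex.I *
              ((wT (TO T) (some (S l.succ)) j - wT (TO T) (some (S 0)) j : ℝ) : ℂ) =
            (lw (Γ.fn (eg lam c a S l.succ : EOpen lam c a)) j θ -
              2 * Real.pi * Complex.I * wT (TO T) (some (S l.succ)) j) -
            (lw (Γ.fn (eg lam c a S 0 : EOpen lam c a)) j θ -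
              2 * Real.pi * Complex.I * wT (TO T) (some (S 0)) j) := by
          push_cast
          ring
        rw [e2]
        refine (norm_sub_le _ _).trans ?_
        have h7 : 2 * δ0 ≤ (m + 4) * δ0 := mul_le_mul_of_nonneg_right (by linarith) hδ0pos.le
        linarith

theorem exists_tori (σ : K →+* ℂ)
    (hdet : ∀ T : Fin (d + 1) → Fin (m + 1), Function.Injective T → (cm c T).det ≠ 0)
    (hgen : ∀ S : Fin (d + 2) → Fin (m + 1), Function.Injective S → ∀ x : Fin (d + 1) → K,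
      ∃ i, ∑ j, c (S i) j * x j ≠ a (S i)) :
    ∃ C : ℝ, 1 ≤ C ∧ ∀ lam : K, C ≤ ‖σ lam‖ →
      ∃ Γ : {s : Finset (Fin m) // s.card = d + 1} → Torus (EOpen lam c a) (d + 2),
        (∀ t θ x, (Γ t).e θ (ecst lam c a x) = σ x) ∧
        (Matrix.of fun t i : {s : Finset (Fin m) // s.card = d + 1} =>
          (Γ t).reg (symb (eent lam c a (splx i)))).det ≠ 0 := by
  classical
  set D0 : ℝ := (2 * Real.pi) ^ (d + 2) with hD0
  have hD : D0 ≠ 0 := by
    have := Real.pi_pos
    positivity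
  have hlead : (D0 • (1 : Matrix {s : Finset (Fin m) // s.card = d + 1}
      {s : Finset (Fin m) // s.card = d + 1} ℝ)).det ≠ 0 := by
    rw [Matrix.det_smul, Matrix.det_one, mul_one]
    exact pow_ne_zero _ hD
  obtain ⟨δ, hδ, hdet'⟩ := det_ne_zero_near _ hlead
  choose Λ hΛ1 hΛ using fun t : {s : Finset (Fin m) // s.card = d + 1} =>
    exists_torus (a := a) σ hdet hgen (vert_injective t) (ε := δ / 2) (by linarith)
  set C : ℝ := ∑ t, |Λ t| + 2 with hC
  have hsum : 0 ≤ ∑ t, |Λ t| := Finset.sum_nonneg fun J _ => abs_nonneg _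
  have hΛC : ∀ t, Λ t ≤ C := by
    intro t
    have h1 := Finset.single_le_sum (f := fun t => |Λ t|) (fun t _ => abs_nonneg _)
      (Finset.mem_univ t)
    have h2 := le_abs_self (Λ t)
    have h3 : |Λ t| ≤ ∑ t, |Λ t| := h1
    linarith
  refine ⟨C, by linarith, fun lam hlam => ?_⟩
  choose Γ hΓ1 hΓ2 using fun t => hΛ t lam ((hΛC t).trans hlam)
  refine ⟨Γ, hΓ1, ?_⟩
  have hs : Real.log ‖σ lam‖ ≠ 0 := by
    have : 0 < Real.log ‖σ lam‖ := Real.log_pos (by linarith)
    linarith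
  set s : ℝ := Real.log ‖σ lam‖ with hsdef
  have h1 : (Matrix.of fun t i : {s : Finset (Fin m) // s.card = d + 1} =>
      (Γ t).reg (symb (eent lam c a (splx i))) / s).det ≠ 0 := by
    refine hdet' _ fun t i => ?_
    rw [Matrix.of_apply, Matrix.smul_apply, Matrix.one_apply, smul_eq_mul]
    refine lt_of_le_of_lt ?_ (show δ / 2 < δ by linarith)
    have h2 := hΓ2 t (splx i) (splx_injective i)
    rwa [det_RE, det_RM] at h2
  have h2 : (Matrix.of fun t i : {s : Finset (Fin m) // s.card = d + 1} =>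
      (Γ t).reg (symb (eent lam c a (splx i)))) =
      s • (Matrix.of fun t i : {s : Finset (Fin m) // s.card = d + 1} =>
        (Γ t).reg (symb (eent lam c a (splx i))) / s) := by
    ext t i
    rw [Matrix.smul_apply, Matrix.of_apply, Matrix.of_apply, smul_eq_mul]
    field_simp
  rw [h2, Matrix.det_smul]
  exact mul_ne_zero (pow_ne_zero _ hs) h1

end main

end Pool.Agent.TH826.EF
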