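import Pool.Agent.TH826.DC.Cup
set_option autoImplicit false

/-!
The part of Milnor K-theory generated by the symbols with a one-unit among the entries, and symbols
with entries `y`, `z` on the curves `y + 1/y + z + 1/z = P`.
-/

namespace Pool.Agent.TH826.EF

open scoped WithZero

open Pool.Agent.TH826.MK

open Pool.Agent.TH826.SX

open Pool.Agent.TH826.DC (cup cup_symb)

section one

variable {L : Type*} [Field L] {n : ℕ}

/-- The span of the symbols with a one-unit among the entries. -/
noncomputable def onePart (v : Valuation L ℤᵐ⁰) (n : ℕ) : Submodule ℚ (KQ L n) :=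
  Submodule.span ℚ {z | ∃ (a : Fin n → Lˣ) (k : Fin n), v ((a k : L) - 1) < 1 ∧ z = symb a}

theorem onePart_le (v : Valuation L ℤᵐ⁰) : onePart v n ≤ unitPart v n := by
  unfold onePart
  rw [Submodule.span_le]
  rintro z ⟨a, k, hk, rfl⟩
  exact mem_unitPart_of_oneUnit' v k a hk

theorem cup_mem_onePart (v : Valuation L ℤᵐ⁰) (x : Lˣ) {z : KQ L n} (hz : z ∈ onePart v n) :
    cup x z ∈ onePart v (n + 1) := by
  unfold onePart at hz
  induction hz using Submodule.span_induction with
  | mem z hz =>
    obtain ⟨a, k, hk, rfl⟩ := hz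
    rw [cup_symb]
    exact Submodule.subset_span ⟨_, k.succ, by rwa [Fin.cons_succ], rfl⟩
  | zero => rw [map_zero]; exact Submodule.zero_mem _
  | add a b _ _ ha hb => rw [map_add]; exact Submodule.add_mem _ ha hb
  | smul q a _ ha => rw [map_smul]; exact Submodule.smul_mem _ _ ha

/-- A symbol with integral entries whose sum is congruent to `-1`. -/
theorem mem_onePart_of_sum (v : Valuation L ℤᵐ⁰) (a : Fin n → Lˣ) (h1 : ∀ k, v (a k : L) ≤ 1)
    (h : v (1 + ∑ k, (a k : L)) < 1) : symb a ∈ onePart v n := by
  classical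
  set T : Finset (Fin n) := Finset.univ.filter fun k => v (a k : L) = 1 with hT
  have hrest : v (∑ k ∈ Finset.univ.filter (fun k => ¬ v (a k : L) = 1), (a k : L)) < 1 := by
    refine Valuation.map_sum_lt v one_ne_zero fun k hk => ?_
    exact lt_of_le_of_ne (h1 k) (Finset.mem_filter.1 hk).2
  have hTsum : v (1 + ∑ k ∈ T, (a k : L)) < 1 := by
    have e : 1 + ∑ k ∈ T, (a k : L) = (1 + ∑ k, (a k : L)) -
        ∑ k ∈ Finset.univ.filter (fun k => ¬ v (a k : L) = 1), (a k : L) := by
      rw [← Finset.sum_filter_add_sum_filter_not Finset.univ (fun k => v (a k : L) = 1)]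
      ring
    rw [e]
    exact (v.map_sub _ _).trans_lt (max_lt h hrest)
  have hne : T.Nonempty := by
    by_contra hcon
    rw [Finset.not_nonempty_iff_eq_empty] at hcon
    rw [hcon, Finset.sum_empty, add_zero, map_one] at hTsum
    exact lt_irrefl _ hTsum
  obtain ⟨t, ht⟩ := hne
  have hvt : v (a t : L) = 1 := (Finset.mem_filter.1 ht).2
  set e : L := -1 - ∑ k ∈ T.erase t, (a k : L) with he
  have hsub : (a t : L) - e = 1 + ∑ k ∈ T, (a k : L) := by
    rw [he, ← Finset.add_sum_erase T _ ht]
    ring
  have hve : v e = 1 := by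
    have e1 : e = a t - ((a t : L) - e) := by ring
    rw [e1, hsub, ← hvt]
    refine Valuation.map_sub_eq_of_lt_left v ?_
    rw [hvt]
    exact hTsum
  have he0 : e ≠ 0 := by
    intro h0
    rw [h0, map_zero] at hve
    exact zero_ne_one hve
  set e' : Lˣ := Units.mk0 e he0 with he'
  have hq : a t = e' * (a t / e') := by rw [mul_div_cancel]
  have h2 : symb a = symb (Function.update a t e') + symb (Function.update a t (a t / e')) := by
    rw [← symb_update_mul, ← hq, Function.update_eq_self]
  have h3 : symb (Function.update a t e') = 0 := by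
    rw [symb_eq_zero_of_sum_neg T]
    rw [← Finset.add_sum_erase T _ ht, Function.update_self,
      Finset.sum_congr rfl fun k hk => by rw [Function.update_of_ne (Finset.ne_of_mem_erase hk)],
      he', Units.val_mk0, he]
    ring
  rw [h3, zero_add] at h2
  rw [h2]
  refine Submodule.subset_span ⟨_, t, ?_, rfl⟩
  rw [Function.update_self, Units.val_div_eq_div_val, he', Units.val_mk0,
    div_sub_one he0, map_div₀, hve, div_one, hsub]
  exact hTsum

/-- The symbols `{z_1/z_0, ..., z_n/z_0}`, if the sum of the `z_k` is of smaller order than the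
largest `z_k`. -/
theorem mem_onePart_of_sum_lt (v : Valuation L ℤᵐ⁰) (z : Fin (n + 1) → Lˣ)
    (l : Fin (n + 1)) (hl : ∀ k, v (z k : L) ≤ v (z l : L))
    (h : v (∑ k, (z k : L)) < v (z l : L)) :
    symb (fun k : Fin n => z k.succ / z 0) ∈ onePart v n := by
  have hdiv : ∀ k j, ((z k / z j : Lˣ) : L) = (z k : L) / (z j : L) := fun k j =>
    Units.val_div_eq_div_val _ _
  have hl0 : (z l : L) ≠ 0 := (z l).ne_zero
  have hvl0 : 0 < v (z l : L) := by
    rw [Valuation.pos_iff]
    exact hl0
  have hle : ∀ k, v ((z k : L) / z l) ≤ 1 := by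
    intro k
    rw [map_div₀, div_le_one₀ hvl0]
    exact hl k
  have hlt : v ((∑ k, (z k : L)) / z l) < 1 := by
    rw [map_div₀, div_lt_one₀ hvl0]
    exact h
  revert hl0 hvl0 hle hlt
  refine Fin.cases ?_ (fun l => ?_) l
  · intro hl0 hvl0 hle hlt
    refine mem_onePart_of_sum v _ (fun k => ?_) ?_
    · rw [hdiv]
      exact hle _
    · simp only [hdiv]
      have e : 1 + ∑ k : Fin n, (z k.succ : L) / z 0 = (∑ k, (z k : L)) / z 0 := by
        rw [Fin.sum_univ_succ, add_div, Finset.sum_div, div_self hl0]
      rw [e]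
      exact hlt
  · intro hl0 hvl0 hle hlt
    rw [symb_swap z l]
    refine Submodule.neg_mem _ (mem_onePart_of_sum v _ (fun k => ?_) ?_)
    · by_cases hk : k = l
      · rw [if_pos hk, hdiv]; exact hle _
      · rw [if_neg hk, hdiv]; exact hle _
    · have e : 1 + ∑ k : Fin n, ((if k = l then z 0 / z l.succ else z k.succ / z l.succ : Lˣ) : L) =
          (∑ k, (z k : L)) / z l.succ := by
        rw [Fin.sum_univ_succ, ← Finset.add_sum_erase _ _ (Finset.mem_univ l),
          ← Finset.add_sum_erase Finset.univ (fun k : Fin n => (z k.succ : L))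
            (Finset.mem_univ l), if_pos rfl,
          Finset.sum_congr rfl fun k hk => by rw [if_neg (Finset.ne_of_mem_erase hk), hdiv],
          ← Finset.sum_div, hdiv]
        field_simp
        ring
      rw [e]
      exact hlt

/-- A symbol with entries `y` and `- y^{±1} w`, `w` a one-unit. -/
theorem mem_unitPart_of_pair (v : Valuation L ℤᵐ⁰) (a : Fin n → Lˣ) {i j : Fin n} (hij : i ≠ j)
    (w : Lˣ) (hw : v ((w : L) - 1) < 1) (h : a j = -a i * w ∨ a j = -(a i)⁻¹ * w) :
    symb a ∈ unitPart v n := by
  classical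
  have key : ∀ b : Lˣ, a j = b * w → symb (Function.update a j b) = 0 → symb a ∈ unitPart v n := by
    intro b hb h0
    have h2 : symb a = symb (Function.update a j b) + symb (Function.update a j w) := by
      rw [← symb_update_mul, ← hb, Function.update_eq_self]
    rw [h2, h0, zero_add]
    exact mem_unitPart_of_oneUnit' v j _ (by rwa [Function.update_self])
  rcases h with h | h
  · refine key _ h (symb_self_neg _ hij ?_)
    rw [Function.update_self, Function.update_of_ne hij]
  · refine key _ h ?_
    rw [symb_upd_neg, symb_upd_inv, symb_self _ hij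
      (by rw [Function.update_self, Function.update_of_ne hij]), neg_zero]

end one

section curve

variable {L : Type*} [Field L] (v : Valuation L ℤᵐ⁰) {y z P : L}

/-- The case of a pole of `y`. -/
theorem pair_of_pole (hz : z ≠ 0) (hP : v P ≤ 1) (heq : y + y⁻¹ + (z + z⁻¹) = P)
    (h1 : 1 < v y) : ∃ w : L, v (w - 1) < 1 ∧ (z = -y * w ∨ z = -y⁻¹ * w) := by
  have hy : y ≠ 0 := by
    rintro rfl
    rw [map_zero] at h1
    exact absurd h1 (not_lt.2 zero_le_one)
  have hy0 : 0 < v y := zero_lt_one.trans h1
  have hyi : v y⁻¹ ≤ 1 := by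
    rw [map_inv₀]
    exact inv_le_one_of_one_le₀ h1.le
  rcases le_total 1 (v z) with h2 | h2
  · have hzi : v z⁻¹ ≤ 1 := by
      rw [map_inv₀]
      exact inv_le_one_of_one_le₀ h2
    have h3 : v (y + z) ≤ 1 := by
      have e : y + z = P - y⁻¹ - z⁻¹ := by linear_combination heq
      rw [e]
      exact (v.map_sub _ _).trans (max_le ((v.map_sub _ _).trans (max_le hP hyi)) hzi)
    refine ⟨-z / y, ?_, Or.inl ?_⟩
    · have e : -z / y - 1 = -((y + z) / y) := by
        field_simp
        ring
      rw [e, Valuation.map_neg, map_div₀, div_lt_one₀ hy0]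
      exact h3.trans_lt h1
    · field_simp
  · have h3 : v (y + z⁻¹) ≤ 1 := by
      have e : y + z⁻¹ = P - y⁻¹ - z := by linear_combination heq
      rw [e]
      exact (v.map_sub _ _).trans (max_le ((v.map_sub _ _).trans (max_le hP hyi)) h2)
    have h4 : v (-z⁻¹ / y - 1) < 1 := by
      have e : -z⁻¹ / y - 1 = -((y + z⁻¹) / y) := by
        field_simp
        ring
      rw [e, Valuation.map_neg, map_div₀, div_lt_one₀ hy0]
      exact h3.trans_lt h1
    have h5 : v (-z⁻¹ / y) = 1 := val_one_of_sub_one h4
    refine ⟨-(y * z), ?_, Or.inr ?_⟩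
    · have e : -(y * z) - 1 = -((-z⁻¹ / y - 1) / (-z⁻¹ / y)) := by
        field_simp
        ring
      rw [e, Valuation.map_neg, map_div₀, h5, div_one]
      exact h4
    · field_simp

/-- At a valuation at which `y` and `z` are not both units, or at which `P` is not a unit, `z` is
`- y^{±1}` up to a one-unit. -/
theorem pair_cases (hy : y ≠ 0) (hz : z ≠ 0) (hP : v P ≤ 1) (heq : y + y⁻¹ + (z + z⁻¹) = P)
    (h : ¬ (v y = 1 ∧ v z = 1 ∧ v P = 1)) :
    ∃ w : L, v (w - 1) < 1 ∧ (z = -y * w ∨ z = -y⁻¹ * w) := by
  rcases lt_trichotomy (v y) 1 with h1 | h1 | h1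
  · have h2 : 1 < v y⁻¹ := by
      rw [map_inv₀]
      exact (one_lt_inv₀ ((Valuation.pos_iff v).2 hy)).2 h1
    obtain ⟨w, hw, h3⟩ := pair_of_pole (y := y⁻¹) v hz hP
      (by rw [inv_inv]; linear_combination heq) h2
    rw [inv_inv] at h3
    exact ⟨w, hw, h3.symm⟩
  · have hyi : v y⁻¹ = 1 := by rw [map_inv₀, h1, inv_one]
    have h3 : v (z + z⁻¹) ≤ 1 := by
      have e : z + z⁻¹ = P - (y + y⁻¹) := by linear_combination heq
      rw [e]
      refine (v.map_sub _ _).trans (max_le hP ((v.map_add _ _).trans ?_))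
      rw [h1, hyi, max_self]
    have hz1 : v z = 1 := by
      rcases lt_trichotomy (v z) 1 with h2 | h2 | h2
      · exfalso
        have h4 : 1 < v z⁻¹ := by
          rw [map_inv₀]
          exact (one_lt_inv₀ ((Valuation.pos_iff v).2 hz)).2 h2
        have h5 : v (z + z⁻¹) = v z⁻¹ := Valuation.map_add_eq_of_lt_right v (h2.trans h4)
        rw [h5] at h3
        exact absurd h4 (not_lt.2 h3)
      · exact h2
      · exfalso
        have h4 : v z⁻¹ < 1 := by
          rw [map_inv₀]
          exact inv_lt_one_of_one_lt₀ h2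
        have h5 : v (z + z⁻¹) = v z := Valuation.map_add_eq_of_lt_left v (h4.trans h2)
        rw [h5] at h3
        exact absurd h2 (not_lt.2 h3)
    have hP1 : v P < 1 := lt_of_le_of_ne hP fun e => h ⟨h1, hz1, e⟩
    have hprod : (y + z) / y * (1 + y * z) = P * z := by
      rw [← heq]
      field_simp
      ring
    have hlt : v ((y + z) / y) * v (1 + y * z) < 1 := by
      rw [← map_mul, hprod, map_mul, hz1, mul_one]
      exact hP1
    have ha : v ((y + z) / y) ≤ 1 := by
      rw [map_div₀, h1, div_one]
      exact (v.map_add _ _).trans (by rw [h1, hz1, max_self])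
    rcases lt_or_eq_of_le ha with ha | ha
    · refine ⟨-z / y, ?_, Or.inl ?_⟩
      · have e : -z / y - 1 = -((y + z) / y) := by
          field_simp
          ring
        rw [e, Valuation.map_neg]
        exact ha
      · field_simp
    · rw [ha, one_mul] at hlt
      refine ⟨-(y * z), ?_, Or.inr ?_⟩
      · have e : -(y * z) - 1 = -(1 + y * z) := by ring
        rw [e, Valuation.map_neg]
        exact hlt
      · field_simp
  · exact pair_of_pole v hz hP heq h1

end curve

end Pool.Agent.TH826.EF
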