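import Pool.Agent.TH826.EF.Dom
import Pool.Agent.TH826.EF.Milnor
set_option autoImplicit false

/-!
The elliptic fibrations `y + 1/y + z + 1/z = λ ∏_e L_e` over the affine space and the symbols
`{z, y, γ_1 L_{S 1}/(γ_0 L_{S 0}), ..., γ_n L_{S n}/(γ_0 L_{S 0})}`.
-/

namespace Pool.Agent.TH826.EF

open scoped WithZero

open Pool.Agent.TH826.MK (KQ symb Unramified unitPart)

open Pool.Agent.TH826.GA

open Pool.Agent.TH826.DC (dPhi cup cup_symb)

section Ring

variable {K : Type*} [Field K] {d m : ℕ} (lam : K) (c : Fin (m + 1) → Fin (d + 1) → K)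
  (a : Fin (m + 1) → K)

/-- The coordinate ring of the hypersurface `y z² + (y² + 1 - Φ y) z + y = 0` in the affine space
with coordinates `x_0, ..., x_d, y, z`. -/
def ERing : Type _ := AdjoinRoot (eE (dPhi lam c a))

noncomputable instance : CommRing (ERing lam c a) := AdjoinRoot.instCommRing (eE (dPhi lam c a))

/-- The polynomials in `x_0, ..., x_d` and `y` as functions on the hypersurface. -/
noncomputable def eof : Polynomial (MvPolynomial (Fin (d + 1)) K) →+* ERing lam c a :=
  AdjoinRoot.of (eE (dPhi lam c a))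

/-- The polynomials in `x_0, ..., x_d` as functions on the hypersurface. -/
noncomputable def epol : MvPolynomial (Fin (d + 1)) K →+* ERing lam c a :=
  (eof lam c a).comp Polynomial.C

/-- The function `y`. -/
noncomputable def ey : ERing lam c a := eof lam c a Polynomial.X

/-- The function `z`. -/
noncomputable def ez : ERing lam c a := AdjoinRoot.root (eE (dPhi lam c a))

/-- The function `Δ = y z Φ`. -/
noncomputable def eDel : ERing lam c a := ey lam c a * ez lam c a * epol lam c a (dPhi lam c a)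

/-- The polynomial `Δ T - 1`. -/
noncomputable def eqnT : Polynomial (ERing lam c a) :=
  Polynomial.C (eDel lam c a) * Polynomial.X - 1

/-- The coordinate ring of the open part `y z Φ ≠ 0` of the hypersurface: the ring obtained from the
coordinate ring of the hypersurface by adjoining `T` with `y z Φ T = 1`. -/
def EOpen : Type _ := AdjoinRoot (eqnT lam c a)

noncomputable instance : CommRing (EOpen lam c a) := AdjoinRoot.instCommRing (eqnT lam c a)

/-- The restriction of functions to the open part. -/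
noncomputable def toE : ERing lam c a →+* EOpen lam c a := AdjoinRoot.of (eqnT lam c a)

/-- The constants. -/
noncomputable def ecst : K →+* EOpen lam c a :=
  (toE lam c a).comp ((epol lam c a).comp MvPolynomial.C)

theorem ez_eq : ey lam c a * ez lam c a ^ 2 +
    (ey lam c a ^ 2 + 1 - epol lam c a (dPhi lam c a) * ey lam c a) * ez lam c a +
    ey lam c a = 0 := by
  have h := AdjoinRoot.mk_self (f := eE (dPhi lam c a))
  have h2 : AdjoinRoot.mk (eE (dPhi lam c a)) (eE (dPhi lam c a)) =
      AdjoinRoot.of (eE (dPhi lam c a)) Polynomial.X * AdjoinRoot.root (eE (dPhi lam c a)) ^ 2 +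
      AdjoinRoot.of (eE (dPhi lam c a))
        (Polynomial.X ^ 2 + 1 - Polynomial.C (dPhi lam c a) * Polynomial.X) *
        AdjoinRoot.root (eE (dPhi lam c a)) +
      AdjoinRoot.of (eE (dPhi lam c a)) Polynomial.X := by
    conv_lhs => rw [show AdjoinRoot.mk (eE (dPhi lam c a)) (eE (dPhi lam c a)) =
      AdjoinRoot.mk (eE (dPhi lam c a)) (Polynomial.C Polynomial.X * Polynomial.X ^ 2 +
        Polynomial.C (Polynomial.X ^ 2 + 1 - Polynomial.C (dPhi lam c a) * Polynomial.X) *
        Polynomial.X + Polynomial.C Polynomial.X) from rfl]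
    rw [map_add, map_add, map_mul, map_mul, map_pow, AdjoinRoot.mk_X, AdjoinRoot.mk_C,
      AdjoinRoot.mk_C]
  rw [h2, map_sub, map_add, map_mul, map_pow, map_one] at h
  exact h

theorem isUnit_eDel : IsUnit (toE lam c a (eDel lam c a)) := by
  have h := AdjoinRoot.mk_self (f := eqnT lam c a)
  have h2 : AdjoinRoot.mk (eqnT lam c a) (eqnT lam c a) =
      AdjoinRoot.of (eqnT lam c a) (eDel lam c a) * AdjoinRoot.root (eqnT lam c a) - 1 := by
    conv_lhs => rw [show AdjoinRoot.mk (eqnT lam c a) (eqnT lam c a) =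
      AdjoinRoot.mk (eqnT lam c a)
      (Polynomial.C (eDel lam c a) * Polynomial.X - 1) from rfl]
    rw [map_sub, map_mul, map_one, AdjoinRoot.mk_X, AdjoinRoot.mk_C]
  rw [h2, sub_eq_zero] at h
  exact IsUnit.of_mul_eq_one _ h

theorem isUnit_ePhi : IsUnit (toE lam c a (epol lam c a (dPhi lam c a))) :=
  isUnit_of_dvd_unit (map_dvd _ (Dvd.intro_left _ rfl)) (isUnit_eDel lam c a)

theorem isUnit_ey : IsUnit (toE lam c a (ey lam c a)) := by
  refine isUnit_of_dvd_unit (map_dvd _ ?_) (isUnit_eDel lam c a)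
  unfold eDel
  rw [mul_assoc]
  exact Dvd.intro _ rfl

theorem isUnit_ez : IsUnit (toE lam c a (ez lam c a)) := by
  refine isUnit_of_dvd_unit (map_dvd _ ?_) (isUnit_eDel lam c a)
  unfold eDel
  rw [mul_comm (ey lam c a), mul_assoc]
  exact Dvd.intro _ rfl

theorem isUnit_el (e : Fin (m + 1)) : IsUnit (toE lam c a (epol lam c a (lf c a e))) := by
  refine isUnit_of_dvd_unit (map_dvd _ (map_dvd _ ?_)) (isUnit_ePhi lam c a)
  exact Dvd.dvd.mul_left (Finset.dvd_prod_of_mem (fun e => lf c a e) (Finset.mem_univ e)) _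

/-- The unit `y`. -/
noncomputable def uy : (EOpen lam c a)ˣ := (isUnit_ey lam c a).unit

/-- The unit `z`. -/
noncomputable def uz : (EOpen lam c a)ˣ := (isUnit_ez lam c a).unit

/-- The unit `L_e`. -/
noncomputable def eu (e : Fin (m + 1)) : (EOpen lam c a)ˣ := (isUnit_el lam c a e).unit

theorem coe_uy : (uy lam c a : EOpen lam c a) = toE lam c a (ey lam c a) := rfl

theorem coe_uz : (uz lam c a : EOpen lam c a) = toE lam c a (ez lam c a) := rfl

theorem coe_eu (e : Fin (m + 1)) :
    (eu lam c a e : EOpen lam c a) = toE lam c a (epol lam c a (lf c a e)) := rfl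

/-- The unit `γ_i L_{S i}`, where `∑_i γ_i L_{S i}` is constant. -/
noncomputable def eg (S : Fin (d + 2) → Fin (m + 1)) (i : Fin (d + 2)) : (EOpen lam c a)ˣ :=
  Units.map (ecst lam c a : K →* EOpen lam c a) (ku (gam c S i)) * eu lam c a (S i)

/-- The entries `z`, `y` and `γ_k L_{S k} / (γ_0 L_{S 0})`, `k = 1, ..., d + 1`, of the symbol of
the simplex with the facets `L_{S 0}, ..., L_{S (d + 1)}`. -/
noncomputable def eent (S : Fin (d + 2) → Fin (m + 1)) : Fin (d + 3) → (EOpen lam c a)ˣ :=
  Fin.cons (uz lam c a) (Fin.cons (uy lam c a)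
    fun k : Fin (d + 1) => eg lam c a S k.succ / eg lam c a S 0 : Fin (d + 2) → (EOpen lam c a)ˣ)

end Ring

section Domain

variable {K : Type*} [Field K] {d m : ℕ} {lam : K} {c : Fin (m + 1) → Fin (d + 1) → K}
  {a : Fin (m + 1) → K}

theorem isDomain_ERing (hc : ∀ e, c e ≠ 0) (hl : lam ≠ 0) : IsDomain (ERing lam c a) :=
  AdjoinRoot.isDomain_of_prime (irreducible_eE (DC.dPhi_ne_C hc hl)).prime

theorem eof_ne_zero {p : Polynomial (MvPolynomial (Fin (d + 1)) K)} (hp : p ≠ 0) :
    eof lam c a p ≠ 0 := by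
  intro h
  have h1 : AdjoinRoot.mk (eE (dPhi lam c a)) (Polynomial.C p) = 0 := h
  rw [AdjoinRoot.mk_eq_zero] at h1
  refine not_dvd (by simpa using hp) ?_ h1
  rw [Polynomial.natDegree_C]
  norm_num

theorem eDel_ne_zero (hc : ∀ e, c e ≠ 0) (hl : lam ≠ 0) : eDel lam c a ≠ 0 := by
  have := isDomain_ERing (a := a) hc hl
  unfold eDel
  refine mul_ne_zero (mul_ne_zero (eof_ne_zero Polynomial.X_ne_zero) ?_) ?_
  · intro h
    have h1 : AdjoinRoot.mk (eE (dPhi lam c a)) Polynomial.X = 0 := h
    rw [AdjoinRoot.mk_eq_zero] at h1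
    refine not_dvd Polynomial.X_ne_zero ?_ h1
    rw [Polynomial.natDegree_X]
    norm_num
  · refine eof_ne_zero fun h => ?_
    rw [Polynomial.C_eq_zero] at h
    exact DC.dPhi_ne_C (a := a) hc hl 0 (by rw [h, map_zero])

end Domain

section LiftE

variable {K : Type*} [Field K] {d m : ℕ} {lam : K} {c : Fin (m + 1) → Fin (d + 1) → K}
  {a : Fin (m + 1) → K} {S : Type*} [Field S]

/-- The extension of a homomorphism with `Δ ↦ g Δ ≠ 0` to the ring of the open part. -/
noncomputable def liftE (g : ERing lam c a →+* S) (hg : g (eDel lam c a) ≠ 0) :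
    EOpen lam c a →+* S :=
  AdjoinRoot.lift g (g (eDel lam c a))⁻¹ (by
    unfold eqnT
    simp only [Polynomial.eval₂_sub, Polynomial.eval₂_mul, Polynomial.eval₂_X,
      Polynomial.eval₂_C, Polynomial.eval₂_one]
    rw [mul_inv_cancel₀ hg, sub_self])

theorem liftE_toE (g : ERing lam c a →+* S) (hg : g (eDel lam c a) ≠ 0)
    (b : ERing lam c a) : liftE g hg (toE lam c a b) = g b :=
  AdjoinRoot.lift_of _

theorem liftE_mk (g : ERing lam c a →+* S) (hg : g (eDel lam c a) ≠ 0)
    (p : Polynomial (ERing lam c a)) :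
    liftE g hg (AdjoinRoot.mk (eqnT lam c a) p : AdjoinRoot (eqnT lam c a)) =
      p.eval₂ g (g (eDel lam c a))⁻¹ :=
  AdjoinRoot.lift_mk _ p

end LiftE

section Unram

variable {K : Type*} [Field K] {d m : ℕ} {lam : K} {c : Fin (m + 1) → Fin (d + 1) → K}
  {a : Fin (m + 1) → K}

variable {L : Type*} [Field L] (f : EOpen lam c a →+* L)

/-- the composite map from the coefficient field -/
noncomputable def cE : K →+* L := f.comp (ecst lam c a)

/-- the image of `x_j` -/
noncomputable def xE (j : Fin (d + 1)) : L := f (toE lam c a (epol lam c a (MvPolynomial.X j)))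

/-- the image of `y` -/
noncomputable def yE : L := f (toE lam c a (ey lam c a))

/-- the image of `z` -/
noncomputable def zE : L := f (toE lam c a (ez lam c a))

/-- the image of `L_e` -/
noncomputable def lE (e : Fin (m + 1)) : L := ∑ j, cE f (c e j) * xE f j - cE f (a e)

theorem map_lf (e : Fin (m + 1)) : f (toE lam c a (epol lam c a (lf c a e))) = lE f e := by
  unfold lf lE cE xE ecst
  rw [map_sub, map_sub, map_sub, map_sum, map_sum, map_sum]
  simp only [map_mul]
  rfl

theorem map_eu (e : Fin (m + 1)) : f (eu lam c a e : EOpen lam c a) = lE f e := by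
  rw [coe_eu, map_lf]

theorem map_ePhi : f (toE lam c a (epol lam c a (dPhi lam c a))) = cE f lam * ∏ e, lE f e := by
  unfold dPhi
  rw [map_mul, map_mul, map_mul, map_prod, map_prod, map_prod]
  simp only [map_lf]
  rfl

theorem yE_ne_zero : yE f ≠ 0 := ((isUnit_ey lam c a).map f).ne_zero

theorem zE_ne_zero : zE f ≠ 0 := ((isUnit_ez lam c a).map f).ne_zero

theorem zE_eq : yE f + (yE f)⁻¹ + (zE f + (zE f)⁻¹) = cE f lam * ∏ e, lE f e := by
  have h := congrArg (fun b => f (toE lam c a b)) (ez_eq lam c a)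
  simp only [map_add, map_sub, map_mul, map_pow, map_one, map_zero] at h
  rw [map_ePhi] at h
  have hy := yE_ne_zero f
  have hz := zE_ne_zero f
  have h2 : yE f * zE f ^ 2 + (yE f ^ 2 + 1 - (cE f lam * ∏ e, lE f e) * yE f) * zE f +
    yE f = 0 := h
  field_simp
  linear_combination h2

theorem lE_ne_zero (e : Fin (m + 1)) : lE f e ≠ 0 := by
  rw [← map_lf]
  exact ((isUnit_el lam c a e).map f).ne_zero

theorem map_eg (hA : Unimod c a) {S : Fin (d + 2) → Fin (m + 1)} (hS : Function.Injective S)
    (i : Fin (d + 2)) : f (eg lam c a S i : EOpen lam c a) = cE f (gam c S i) * lE f (S i) := by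
  unfold eg
  rw [Units.val_mul, map_mul, map_eu]
  congr 1
  rw [Units.coe_map]
  show f (ecst lam c a (ku (gam c S i) : K)) = _
  rw [coe_ku (hA.gam_ne hS i)]
  rfl

theorem sum_eg {S : Fin (d + 2) → Fin (m + 1)} :
    ∑ i, cE f (gam c S i) * lE f (S i) = - ∑ i, cE f (gam c S i * a (S i)) := by
  have h1 : ∀ i, cE f (gam c S i) * lE f (S i) =
      ∑ j, cE f (gam c S i * c (S i) j) * xE f j - cE f (gam c S i * a (S i)) := by
    intro i
    unfold lE
    rw [mul_sub, Finset.mul_sum]
    simp only [map_mul, mul_assoc]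
  simp only [h1, Finset.sum_sub_distrib]
  rw [Finset.sum_comm]
  have h2 : ∀ j, ∑ i, cE f (gam c S i * c (S i) j) * xE f j = 0 := by
    intro j
    rw [← Finset.sum_mul, ← map_sum, sum_gam, map_zero, zero_mul]
  simp only [h2, Finset.sum_const_zero, zero_sub]

/-- The coordinates are integral combinations of `d + 1` of the forms. -/
theorem xE_eq (hA : Unimod c a) {T : Fin (d + 1) → Fin (m + 1)} (hT : Function.Injective T)
    (j : Fin (d + 1)) : xE f j =
      ∑ i, cE f (((cm c T).det)⁻¹ * (cm c T).adjugate j i) * (lE f (T i) + cE f (a (T i))) := by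
  have h1 : ∀ i, lE f (T i) + cE f (a (T i)) = ∑ l, cE f (cm c T i l) * xE f l := by
    intro i
    unfold lE cm
    simp
  simp only [h1, Finset.mul_sum]
  rw [Finset.sum_comm]
  have h2 : ∀ l, ∑ i, cE f (((cm c T).det)⁻¹ * (cm c T).adjugate j i) *
      (cE f (cm c T i l) * xE f l) = (if j = l then 1 else 0) * xE f l := by
    intro l
    simp only [← mul_assoc, ← Finset.sum_mul, ← map_mul, ← map_sum]
    congr 1
    have h3 : ∑ i, ((cm c T).det)⁻¹ * (cm c T).adjugate j i * cm c T i l =
        if j = l then 1 else 0 := by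
      simp only [mul_assoc, ← Finset.mul_sum]
      have h4 := congrFun (congrFun (Matrix.adjugate_mul (cm c T)) j) l
      rw [Matrix.mul_apply] at h4
      rw [h4, Matrix.smul_apply, Matrix.one_apply, smul_eq_mul, ← mul_assoc,
        inv_mul_cancel₀ (hA.det_ne T hT), one_mul]
    rw [h3]
    split_ifs <;> simp
  simp only [h2]
  simp

/-- The symbols are unramified at all discrete valuations. -/
theorem symb_mem_unitPart (hlam : IsIntegral ℤ lam) (hA : Unimod c a)
    (v : Valuation L ℤᵐ⁰) {S : Fin (d + 2) → Fin (m + 1)} (hS : Function.Injective S) :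
    symb (fun l => Units.map (f : EOpen lam c a →* L) (eent lam c a S l)) ∈
      unitPart v (d + 3) := by
  have hc : ∀ x : K, IsIntegral ℤ x → v (cE f x) ≤ 1 := fun x hx =>
    Pool.Agent.TH826.MK.val_le_one_of_integral v (map_isIntegral_int _ hx)
  set z : Fin (d + 2) → Lˣ := fun k => Units.map (f : EOpen lam c a →* L) (eg lam c a S k) with hz
  set w : Lˣ := Units.map (f : EOpen lam c a →* L) (uz lam c a) with hw
  set y : Lˣ := Units.map (f : EOpen lam c a →* L) (uy lam c a) with hy
  have hwv : (w : L) = zE f := rfl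
  have hyv : (y : L) = yE f := rfl
  have hzv : ∀ k, (z k : L) = cE f (gam c S k) * lE f (S k) := fun k => map_eg f hA hS k
  have hgam : ∀ k, v (cE f (gam c S k)) = 1 := by
    intro k
    refine le_antisymm (hc _ (hA.gam_int S k)) ?_
    have h1 := hc _ (hA.gam_inv hS k)
    rw [map_inv₀, map_inv₀] at h1
    have h0 : cE f (gam c S k) ≠ 0 := (map_ne_zero _).2 (hA.gam_ne hS k)
    rwa [inv_le_one₀ (by rw [Valuation.pos_iff]; exact h0)] at h1
  have hvz : ∀ k, v (z k : L) = v (lE f (S k)) := by
    intro k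
    rw [hzv, map_mul, hgam, one_mul]
  have hent : (fun l => Units.map (f : EOpen lam c a →* L) (eent lam c a S l)) =
      (Fin.cons w (Fin.cons y fun l : Fin (d + 1) => z l.succ / z 0 : Fin (d + 2) → Lˣ) :
        Fin (d + 3) → Lˣ) := by
    funext l
    refine Fin.cases ?_ (fun l => ?_) l
    · rfl
    · rw [Fin.cons_succ]
      refine Fin.cases ?_ (fun l => ?_) l
      · rfl
      · rw [Fin.cons_succ]
        exact map_div (Units.map (f : EOpen lam c a →* L)) _ _
  rw [hent]
  by_cases hB : ∃ k, 1 < v (z k : L)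
  · obtain ⟨k, hk⟩ := hB
    obtain ⟨l, -, hl⟩ := Finset.exists_max_image Finset.univ (fun k => v (z k : L))
      ⟨k, Finset.mem_univ k⟩
    have h2 : 1 < v (z l : L) := hk.trans_le (hl k (Finset.mem_univ k))
    have h3 : symb (fun l : Fin (d + 1) => z l.succ / z 0) ∈ onePart v (d + 1) := by
      refine mem_onePart_of_sum_lt v z l (fun k => hl k (Finset.mem_univ k)) ?_
      refine lt_of_le_of_lt ?_ h2
      simp only [hzv]
      rw [sum_eg f, Valuation.map_neg]
      exact Valuation.map_sum_le v fun k _ => hc _ ((hA.gam_int S k).mul (hA.int_a _))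
    have h4 := cup_mem_onePart v w (cup_mem_onePart v y h3)
    rw [cup_symb, cup_symb] at h4
    exact onePart_le v h4
  · push Not at hB
    have hSk : ∀ k, v (lE f (S k)) ≤ 1 := fun k => by
      rw [← hvz]
      exact hB k
    -- the coordinates are integral
    have hT : Function.Injective fun p : Fin (d + 1) => S ((0 : Fin (d + 2)).succAbove p) :=
      injective_face hS 0
    have hx : ∀ j, v (xE f j) ≤ 1 := by
      intro j
      rw [xE_eq f hA hT j]
      refine Valuation.map_sum_le v fun i _ => ?_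
      rw [map_mul]
      refine mul_le_one' (hc _ ((hA.det_inv _ hT).mul (isIntegral_adj hA _ _ _))) ?_
      exact (v.map_add _ _).trans (max_le (hSk _) (hc _ (hA.int_a _)))
    have hle : ∀ e, v (lE f e) ≤ 1 := by
      intro e
      refine (v.map_sub _ _).trans (max_le ?_ (hc _ (hA.int_a _)))
      refine Valuation.map_sum_le v fun j _ => ?_
      rw [map_mul]
      exact mul_le_one' (hc _ (hA.int_c _ _)) (hx j)
    have hPhi : v (cE f lam * ∏ e, lE f e) ≤ 1 := by
      rw [map_mul, map_prod]
      exact mul_le_one' (hc _ hlam) (Finset.prod_le_one' fun e _ => hle e)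
    by_cases hu : v (yE f) = 1 ∧ v (zE f) = 1 ∧ v (cE f lam * ∏ e, lE f e) = 1
    · obtain ⟨hu1, hu2, hu3⟩ := hu
      have hB1 : ∀ e, v (lE f e) = 1 := by
        intro e
        refine le_antisymm (hle e) ?_
        rw [← hu3, map_mul, map_prod, ← Finset.mul_prod_erase _ _ (Finset.mem_univ e)]
        have h1 : ∏ x ∈ Finset.univ.erase e, v (lE f x) ≤ 1 :=
          Finset.prod_le_one' fun j _ => hle j
        calc v (cE f lam) * (v (lE f e) * ∏ x ∈ Finset.univ.erase e, v (lE f x))
            ≤ 1 * (v (lE f e) * 1) := mul_le_mul' (hc _ hlam) (mul_le_mul' le_rfl h1)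
          _ = v (lE f e) := by rw [one_mul, mul_one]
      refine Submodule.subset_span ⟨_, fun l => ?_, rfl⟩
      refine Fin.cases ?_ (fun l => ?_) l
      · exact hu2
      · rw [Fin.cons_succ]
        refine Fin.cases ?_ (fun l => ?_) l
        · exact hu1
        · rw [Fin.cons_succ, Units.val_div_eq_div_val, map_div₀, hvz, hvz, hB1, hB1, div_one]
    · obtain ⟨q, hq1, hq2⟩ := pair_cases v (yE_ne_zero f) (zE_ne_zero f) hPhi (zE_eq f) hu
      have hq0 : q ≠ 0 := by
        rintro rfl
        rw [zero_sub, Valuation.map_neg, map_one] at hq1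
        exact lt_irrefl _ hq1
      refine mem_unitPart_of_pair v _ (i := 1) (j := 0) (by
        intro h
        exact absurd h (by simp)) (Units.mk0 q hq0) (by rwa [Units.val_mk0]) ?_
      have h0 : (Fin.cons w (Fin.cons y fun l : Fin (d + 1) => z l.succ / z 0 :
        Fin (d + 2) → Lˣ) : Fin (d + 3) → Lˣ) 0 = w := rfl
      have h1 : (Fin.cons w (Fin.cons y fun l : Fin (d + 1) => z l.succ / z 0 :
        Fin (d + 2) → Lˣ) : Fin (d + 3) → Lˣ) 1 = y := rfl
      rw [h0, h1]
      rcases hq2 with h | h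
      · left
        apply Units.ext
        rw [Units.val_mul, Units.val_neg, Units.val_mk0]
        exact h
      · right
        apply Units.ext
        rw [Units.val_mul, Units.val_neg, Units.val_mk0, Units.val_inv_eq_inv_val]
        exact h

theorem symb_mem_unramified (hlam : IsIntegral ℤ lam) (hA : Unimod c a)
    {S : Fin (d + 2) → Fin (m + 1)} (hS : Function.Injective S) :
    KQ.map (d + 3) f (symb (eent lam c a S)) ∈ Unramified L (d + 3) := by
  rw [KQ.map_symb]
  unfold Unramified
  simp only [Submodule.mem_iInf]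
  intro v _
  exact symb_mem_unitPart f hlam hA v hS

end Unram

end Pool.Agent.TH826.EF
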