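import Pool.Agent.TH826.EF.Ring
import Pool.Agent.TH826.DC.Tori
set_option autoImplicit false

/-!
Smoothness, evaluation of functions at complex points, and tori in the elliptic fibrations.
-/

namespace Pool.Agent.TH826.EF

open Pool.Agent.TH826.MK

open Pool.Agent.TH826.GA

open Pool.Agent.TH826.DC (dPhi eval_dPhi PhC)

section smooth

variable {K : Type*} [Field K] {d m : ℕ} {c : Fin (m + 1) → Fin (d + 1) → K}
  {a : Fin (m + 1) → K}

theorem exists_smooth (σ : K →+* ℂ)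
    (hdet : ∀ T : Fin (d + 1) → Fin (m + 1), Function.Injective T → (cm c T).det ≠ 0)
    (hgen : ∀ S : Fin (d + 2) → Fin (m + 1), Function.Injective S → ∀ x : Fin (d + 1) → K,
      ∃ i, ∑ j, c (S i) j * x j ≠ a (S i)) (hm : d + 1 ≤ m) :
    ∃ C : ℝ, ∀ lam : K, C ≤ ‖σ lam‖ → ∀ (x : Fin (d + 1) → ℂ) (y z : ℂ), y ≠ 0 → z ≠ 0 →
      MvPolynomial.eval₂ σ x (dPhi lam c a) ≠ 0 →
      y * z ^ 2 + (y ^ 2 + 1 - MvPolynomial.eval₂ σ x (dPhi lam c a) * y) * z + y = 0 →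
      z ^ 2 + (2 * y - MvPolynomial.eval₂ σ x (dPhi lam c a)) * z + 1 ≠ 0 ∨
      2 * y * z + (y ^ 2 + 1 - MvPolynomial.eval₂ σ x (dPhi lam c a) * y) ≠ 0 ∨
      ∃ j, MvPolynomial.eval₂ σ x (MvPolynomial.pderiv j (dPhi lam c a)) * y * z ≠ 0 := by
  obtain ⟨C, hC⟩ := GA.exists_smooth σ hdet hgen hm
  refine ⟨4 * C, fun lam hlam x y z hy hz hΦ heq => ?_⟩
  by_contra hcon
  push Not at hcon
  obtain ⟨h1, h2, h3⟩ := hcon
  set Φ : ℂ := MvPolynomial.eval₂ σ x (dPhi lam c a) with hΦdef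
  have hy2 : y ^ 2 = 1 := by
    have h4 : z * (y ^ 2 - 1) = 0 := by linear_combination y * h1 - heq
    rcases mul_eq_zero.1 h4 with h | h
    · exact absurd h hz
    · linear_combination h
  have hz2 : z ^ 2 = 1 := by
    have h4 : y * (z ^ 2 - 1) = 0 := by linear_combination z * h2 - heq
    rcases mul_eq_zero.1 h4 with h | h
    · exact absurd h hy
    · linear_combination h
  have hPhi : Φ = 2 * y + 2 * z := by
    have h4 : y * z * Φ = 2 * y + 2 * z := by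
      linear_combination -heq + y * hz2 + z * hy2
    linear_combination (y * z) * h4 - (z ^ 2 * Φ - 2 * z) * hy2 - (Φ - 2 * y) * hz2
  have key : ∀ μ : K, ‖σ μ‖ = ‖σ lam‖ / 4 → (∃ ν : K, μ = ν * lam) →
      σ μ * ∏ e, lc σ c a x e = 1 → False := by
    rintro μ hμ ⟨ν, hν⟩ h3'
    obtain ⟨j, hj⟩ := hC μ (by rw [hμ]; linarith) x (by rw [eval_geqn, h3', sub_self])
    apply hj
    have h4 := h3 j
    rw [mul_eq_zero, or_iff_left hz, mul_eq_zero, or_iff_left hy] at h4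
    unfold dPhi at h4
    unfold geqn
    rw [MvPolynomial.pderiv_C_mul, MvPolynomial.eval₂_mul, MvPolynomial.eval₂_C] at h4
    rw [map_sub, MvPolynomial.pderiv_one, sub_zero, MvPolynomial.pderiv_C_mul,
      MvPolynomial.eval₂_mul, MvPolynomial.eval₂_C, hν, map_mul, mul_assoc, h4, mul_zero]
  have hev : Φ = σ lam * ∏ e, lc σ c a x e := eval_dPhi σ lam x
  have hpm : ∀ w : ℂ, w ^ 2 = 1 → w = 1 ∨ w = -1 := by
    intro w hw
    have : (w - 1) * (w + 1) = 0 := by linear_combination hw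
    rcases mul_eq_zero.1 this with h | h
    · left; linear_combination h
    · right; linear_combination h
  have h4K : σ (4⁻¹) = 4⁻¹ := by rw [map_inv₀, map_ofNat]
  rcases hpm y hy2 with hy1 | hy1 <;> rcases hpm z hz2 with hz1 | hz1
  · refine key (4⁻¹ * lam) ?_ ⟨4⁻¹, rfl⟩ ?_
    · rw [map_mul, norm_mul, h4K, norm_inv, Complex.norm_ofNat]
      ring
    · rw [map_mul, h4K]
      rw [hy1, hz1] at hPhi
      linear_combination (4⁻¹ : ℂ) * hPhi - (4⁻¹ : ℂ) * hev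
  · apply hΦ
    rw [hPhi, hy1, hz1]
    ring
  · apply hΦ
    rw [hPhi, hy1, hz1]
    ring
  · refine key (-4⁻¹ * lam) ?_ ⟨-4⁻¹, rfl⟩ ?_
    · rw [map_mul, norm_mul, map_neg, h4K, norm_neg, norm_inv, Complex.norm_ofNat]
      ring
    · rw [map_mul, map_neg, h4K]
      rw [hy1, hz1] at hPhi
      linear_combination (-4⁻¹ : ℂ) * hPhi + (4⁻¹ : ℂ) * hev

end smooth

section Ev

variable {K : Type*} [Field K] {d n m : ℕ} {σ : K →+* ℂ} {lam : K}
  {c : Fin (m + 1) → Fin (d + 1) → K} {a : Fin (m + 1) → K}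

/-- Points at which the large root `z` of `z² - (Φ - y - 1/y) z + 1` is defined and `Φ ≠ 0`. -/
structure EPt (σ : K →+* ℂ) (lam : K) (c : Fin (m + 1) → Fin (d + 1) → K) (a : Fin (m + 1) → K)
    (x : Fin (d + 1) → ℂ) (y : ℂ) : Prop where
  hy : y ≠ 0
  hPhi : PhC σ lam c a x ≠ 0
  lt : 2 < ‖PhC σ lam c a x - (y + y⁻¹)‖

/-- the ring homomorphism on the polynomials in `x` and `y` -/
noncomputable def evR (σ : K →+* ℂ) (x : Fin (d + 1) → ℂ) (y : ℂ) :
    Polynomial (MvPolynomial (Fin (d + 1)) K) →+* ℂ :=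
  Polynomial.eval₂RingHom (MvPolynomial.eval₂Hom σ x) y

theorem EPt.eval_eE {x : Fin (d + 1) → ℂ} {y : ℂ} (hx : EPt σ lam c a x y) :
    Polynomial.eval₂ (evR σ x y) (zeta (PhC σ lam c a x - (y + y⁻¹))) (eE (dPhi lam c a)) = 0 := by
  have hPhi : MvPolynomial.eval₂Hom σ x (dPhi lam c a) = PhC σ lam c a x := eval_dPhi σ lam x
  have h1 : ∀ p, evR σ x y p = Polynomial.eval₂ (MvPolynomial.eval₂Hom σ x) y p := fun p => rfl
  unfold eE
  simp only [Polynomial.eval₂_add, Polynomial.eval₂_sub, Polynomial.eval₂_mul,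
    Polynomial.eval₂_pow, Polynomial.eval₂_X, Polynomial.eval₂_C, Polynomial.eval₂_one, h1]
  rw [hPhi]
  have h2 := zeta_eq hx.lt
  have hy := hx.hy
  set z := zeta (PhC σ lam c a x - (y + y⁻¹)) with hz
  have h3 : y * y⁻¹ = 1 := mul_inv_cancel₀ hy
  linear_combination y * h2 - z * h3

/-- evaluation of the regular functions on the hypersurface -/
noncomputable def EPt.evB {x : Fin (d + 1) → ℂ} {y : ℂ} (hx : EPt σ lam c a x y) :
    ERing lam c a →+* ℂ :=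
  AdjoinRoot.lift (evR σ x y) (zeta (PhC σ lam c a x - (y + y⁻¹))) hx.eval_eE

theorem EPt.evB_eof {x : Fin (d + 1) → ℂ} {y : ℂ} (hx : EPt σ lam c a x y)
    (p : Polynomial (MvPolynomial (Fin (d + 1)) K)) :
    hx.evB (eof lam c a p) = evR σ x y p :=
  AdjoinRoot.lift_of hx.eval_eE

theorem EPt.evB_epol {x : Fin (d + 1) → ℂ} {y : ℂ} (hx : EPt σ lam c a x y)
    (p : MvPolynomial (Fin (d + 1)) K) :
    hx.evB (epol lam c a p) = MvPolynomial.eval₂Hom σ x p := by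
  show hx.evB (eof lam c a (Polynomial.C p)) = _
  rw [hx.evB_eof]
  exact Polynomial.eval₂_C _ _

theorem EPt.evB_ey {x : Fin (d + 1) → ℂ} {y : ℂ} (hx : EPt σ lam c a x y) :
    hx.evB (ey lam c a) = y := by
  show hx.evB (eof lam c a Polynomial.X) = _
  rw [hx.evB_eof]
  exact Polynomial.eval₂_X _ _

theorem EPt.evB_mk {x : Fin (d + 1) → ℂ} {y : ℂ} (hx : EPt σ lam c a x y)
    (p : Polynomial (Polynomial (MvPolynomial (Fin (d + 1)) K))) :
    hx.evB (AdjoinRoot.mk (eE (dPhi lam c a)) p : AdjoinRoot (eE (dPhi lam c a))) =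
      p.eval₂ (evR σ x y) (zeta (PhC σ lam c a x - (y + y⁻¹))) :=
  AdjoinRoot.lift_mk hx.eval_eE p

theorem EPt.evB_ez {x : Fin (d + 1) → ℂ} {y : ℂ} (hx : EPt σ lam c a x y) :
    hx.evB (ez lam c a) = zeta (PhC σ lam c a x - (y + y⁻¹)) :=
  AdjoinRoot.lift_root hx.eval_eE

theorem EPt.zeta_ne {x : Fin (d + 1) → ℂ} {y : ℂ} (hx : EPt σ lam c a x y) :
    zeta (PhC σ lam c a x - (y + y⁻¹)) ≠ 0 := by
  intro h
  have h1 := zeta_eq hx.lt
  rw [h] at h1
  norm_num at h1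

theorem EPt.evB_ne {x : Fin (d + 1) → ℂ} {y : ℂ} (hx : EPt σ lam c a x y) :
    hx.evB (eDel lam c a) ≠ 0 := by
  unfold eDel
  rw [map_mul, map_mul, hx.evB_ey, hx.evB_ez, hx.evB_epol]
  have e : MvPolynomial.eval₂Hom σ x (dPhi lam c a) = PhC σ lam c a x := eval_dPhi σ lam x
  rw [e]
  exact mul_ne_zero (mul_ne_zero hx.hy hx.zeta_ne) hx.hPhi

/-- evaluation of the regular functions on the open part -/
noncomputable def EPt.evA {x : Fin (d + 1) → ℂ} {y : ℂ} (hx : EPt σ lam c a x y) :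
    EOpen lam c a →+* ℂ :=
  liftE hx.evB hx.evB_ne

theorem EPt.evA_toE {x : Fin (d + 1) → ℂ} {y : ℂ} (hx : EPt σ lam c a x y) (b : ERing lam c a) :
    hx.evA (toE lam c a b) = hx.evB b :=
  liftE_toE _ _ _

theorem EPt.evA_congr {x x' : Fin (d + 1) → ℂ} {y y' : ℂ} (hx : EPt σ lam c a x y)
    (hx' : EPt σ lam c a x' y') (h : x = x') (h' : y = y') : hx.evA = hx'.evA := by
  subst h
  subst h'
  rfl

theorem EPt.evA_ecst {x : Fin (d + 1) → ℂ} {y : ℂ} (hx : EPt σ lam c a x y) (u : K) :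
    hx.evA (ecst lam c a u) = σ u := by
  show hx.evA (toE lam c a (epol lam c a (MvPolynomial.C u))) = _
  rw [hx.evA_toE, hx.evB_epol]
  simp

theorem EPt.evA_uz {x : Fin (d + 1) → ℂ} {y : ℂ} (hx : EPt σ lam c a x y) :
    hx.evA (uz lam c a : EOpen lam c a) = zeta (PhC σ lam c a x - (y + y⁻¹)) := by
  rw [coe_uz, hx.evA_toE, hx.evB_ez]

theorem EPt.evA_uy {x : Fin (d + 1) → ℂ} {y : ℂ} (hx : EPt σ lam c a x y) :
    hx.evA (uy lam c a : EOpen lam c a) = y := by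
  rw [coe_uy, hx.evA_toE, hx.evB_ey]

theorem EPt.evA_eu {x : Fin (d + 1) → ℂ} {y : ℂ} (hx : EPt σ lam c a x y) (e : Fin (m + 1)) :
    hx.evA (eu lam c a e : EOpen lam c a) = lc σ c a x e := by
  rw [coe_eu, hx.evA_toE, hx.evB_epol]
  exact eval_lf σ x e

theorem contDiff_evA {x : (Fin n → ℝ) → (Fin (d + 1) → ℂ)} {y : (Fin n → ℝ) → ℂ}
    (hc : ContDiff ℝ 2 x) (hyc : ContDiff ℝ 2 y)
    (hx : ∀ θ, EPt σ lam c a (x θ) (y θ)) (h : EOpen lam c a) :
    ContDiff ℝ 2 fun θ => (hx θ).evA h := by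
  have hxk : ∀ k, ContDiff ℝ 2 fun θ => x θ k := fun k => contDiff_pi.1 hc k
  have hmv : ∀ p : MvPolynomial (Fin (d + 1)) K,
      ContDiff ℝ 2 fun θ => MvPolynomial.eval₂Hom σ (x θ) p := by
    intro p
    induction p using MvPolynomial.induction_on with
    | C c => simpa using contDiff_const
    | add p q hp hq => simpa using hp.add hq
    | mul_X p k hp => simpa using hp.mul (hxk k)
  have hR : ∀ p : Polynomial (MvPolynomial (Fin (d + 1)) K),
      ContDiff ℝ 2 fun θ => evR σ (x θ) (y θ) p := by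
    intro p
    have e : (fun θ => evR σ (x θ) (y θ) p) = fun θ =>
        ∑ i ∈ Finset.range (p.natDegree + 1), MvPolynomial.eval₂Hom σ (x θ) (p.coeff i) *
          (y θ) ^ i := by
      funext θ
      show Polynomial.eval₂ (MvPolynomial.eval₂Hom σ (x θ)) (y θ) p = _
      rw [Polynomial.eval₂_eq_sum_range]
    rw [e]
    exact ContDiff.sum fun i _ => (hmv _).mul (hyc.pow i)
  have hPhi : ContDiff ℝ 2 fun θ => PhC σ lam c a (x θ) - (y θ + (y θ)⁻¹) := by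
    have h1 := hmv (dPhi lam c a)
    have e : (fun θ => MvPolynomial.eval₂Hom σ (x θ) (dPhi lam c a)) =
        fun θ => PhC σ lam c a (x θ) := funext fun θ => eval_dPhi σ lam (x θ)
    rw [e] at h1
    exact h1.sub (hyc.add (hyc.inv fun θ => (hx θ).hy))
  have hz : ContDiff ℝ 2 fun θ => zeta (PhC σ lam c a (x θ) - (y θ + (y θ)⁻¹)) := by
    rw [contDiff_iff_contDiffAt]
    intro θ
    exact ((contDiffAt_zeta (hx θ).lt).restrict_scalars ℝ).comp θ hPhi.contDiffAt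
  have hB : ∀ b : ERing lam c a, ContDiff ℝ 2 fun θ => (hx θ).evB b := by
    intro b
    obtain ⟨p, hp⟩ := AdjoinRoot.mk_surjective (g := eE (dPhi lam c a)) b
    have e : (fun θ => (hx θ).evB b) = fun θ =>
        ∑ i ∈ Finset.range (p.natDegree + 1), evR σ (x θ) (y θ) (p.coeff i) *
          (zeta (PhC σ lam c a (x θ) - (y θ + (y θ)⁻¹))) ^ i := by
      funext θ
      rw [← hp, (hx θ).evB_mk, Polynomial.eval₂_eq_sum_range]
    rw [e]
    exact ContDiff.sum fun i _ => (hR _).mul (hz.pow i)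
  obtain ⟨p, hp⟩ := AdjoinRoot.mk_surjective (g := eqnT lam c a) h
  have e : (fun θ => (hx θ).evA h) = fun θ =>
      ∑ i ∈ Finset.range (p.natDegree + 1), (hx θ).evB (p.coeff i) *
        ((hx θ).evB (eDel lam c a))⁻¹ ^ i := by
    funext θ
    rw [← hp]
    unfold EPt.evA
    rw [liftE_mk, Polynomial.eval₂_eq_sum_range]
  rw [e]
  exact ContDiff.sum fun i _ => (hB _).mul
    (((hB _).inv fun θ => (hx θ).evB_ne).pow i)

/-- a torus in the hypersurface -/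
noncomputable def mkE (x : (Fin n → ℝ) → (Fin (d + 1) → ℂ)) (y : (Fin n → ℝ) → ℂ)
    (hc : ContDiff ℝ 2 x) (hyc : ContDiff ℝ 2 y)
    (hp : ∀ θ i, x (θ + Pi.single i 1) = x θ) (hyp : ∀ θ i, y (θ + Pi.single i 1) = y θ)
    (hx : ∀ θ, EPt σ lam c a (x θ) (y θ)) : Torus (EOpen lam c a) n where
  e θ := (hx θ).evA
  smooth h := contDiff_evA hc hyc hx h
  periodic θ i := EPt.evA_congr _ _ (hp θ i) (hyp θ i)

variable (x : (Fin n → ℝ) → (Fin (d + 1) → ℂ)) (y : (Fin n → ℝ) → ℂ)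
    (hc : ContDiff ℝ 2 x) (hyc : ContDiff ℝ 2 y)
    (hp : ∀ θ i, x (θ + Pi.single i 1) = x θ) (hyp : ∀ θ i, y (θ + Pi.single i 1) = y θ)
    (hx : ∀ θ, EPt σ lam c a (x θ) (y θ))

theorem mkE_eg (S : Fin (d + 2) → Fin (m + 1)) (i : Fin (d + 2)) (hγ : gam c S i ≠ 0) :
    (mkE x y hc hyc hp hyp hx).fn (eg lam c a S i : EOpen lam c a) =
      fun θ => σ (gam c S i) * lc σ c a (x θ) (S i) := by
  funext θ
  show (hx θ).evA (eg lam c a S i : EOpen lam c a) = _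
  unfold eg
  rw [Units.val_mul, map_mul, EPt.evA_eu, Units.coe_map]
  congr 1
  show (hx θ).evA (ecst lam c a (ku (gam c S i) : K)) = _
  rw [EPt.evA_ecst, coe_ku hγ]

theorem mkE_uz : (mkE x y hc hyc hp hyp hx).fn (uz lam c a : EOpen lam c a) =
      fun θ => zeta (PhC σ lam c a (x θ) - (y θ + (y θ)⁻¹)) := by
  funext θ
  exact (hx θ).evA_uz

theorem mkE_uy : (mkE x y hc hyc hp hyp hx).fn (uy lam c a : EOpen lam c a) = y := by
  funext θ
  exact (hx θ).evA_uy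

end Ev

section sub

variable {n : ℕ} {κ : (Fin n → ℝ) → ℂ}

/-- `1 - κ` for small `κ` -/
theorem good_one_sub (hκ : Good κ) (h : ∀ θ, ‖κ θ‖ ≤ 1 / 2) : Good fun θ => 1 - κ θ := by
  refine ⟨contDiff_const.sub hκ.smooth, fun θ h0 => ?_⟩
  have h1 : κ θ = 1 := (sub_eq_zero.1 h0).symm
  have h2 := h θ
  rw [h1, norm_one] at h2
  norm_num at h2

theorem norm_one_sub_ge {w : ℂ} (h : ‖w‖ ≤ 1 / 2) : 1 / 2 ≤ ‖1 - w‖ := by
  have h1 := norm_sub_norm_le (1 : ℂ) w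
  rw [norm_one] at h1
  linarith

theorem abs_log_one_sub {w : ℂ} (h : ‖w‖ ≤ 1 / 2) : |Real.log ‖1 - w‖| ≤ 1 := by
  have h1 := norm_one_sub_ge h
  have h2 : ‖1 - w‖ ≤ 3 / 2 := by
    refine (norm_sub_le _ _).trans ?_
    rw [norm_one]
    linarith
  have h0 : 0 < ‖1 - w‖ := by linarith
  rw [abs_le]
  constructor
  · have h3 : Real.log (1 / 2) ≤ Real.log ‖1 - w‖ := Real.log_le_log (by norm_num) h1
    have h4 : Real.log (1 / 2 : ℝ) = -Real.log 2 := by
      rw [one_div, Real.log_inv]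
    have h5 := Real.log_two_lt_d9
    linarith
  · have h3 : Real.log ‖1 - w‖ ≤ ‖1 - w‖ - 1 := Real.log_le_sub_one_of_pos h0
    linarith

theorem norm_lw_one_sub (hκ : Good κ) (h : ∀ θ, ‖κ θ‖ ≤ 1 / 2) (j : Fin n) (θ : Fin n → ℝ) :
    ‖lw (fun θ => 1 - κ θ) j θ‖ ≤ 2 * ‖κ θ‖ * ‖lw κ j θ‖ := by
  have h1 : HasFDerivAt κ (fderiv ℝ κ θ) θ :=
    ((hκ.smooth.differentiable (by norm_num)) θ).hasFDerivAt
  have h2 : fderiv ℝ (fun θ => 1 - κ θ) θ = -fderiv ℝ κ θ := by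
    have h3 := (h1.const_sub (1 : ℂ)).fderiv
    exact h3
  have h4 : lw (fun θ => 1 - κ θ) j θ = -(κ θ * lw κ j θ) / (1 - κ θ) := by
    have h0 := hκ.ne_zero θ
    unfold lw
    rw [h2]
    simp only [neg_apply]
    congr 1
    rw [mul_div_cancel₀ _ h0]
  have h5 := norm_one_sub_ge (h θ)
  rw [h4, norm_div, norm_neg, norm_mul, div_le_iff₀ (by linarith)]
  have h6 : 0 ≤ ‖κ θ‖ * ‖lw κ j θ‖ := by positivity
  nlinarith

end sub

end Pool.Agent.TH826.EF
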